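import Pool.Agent.Lib.MP_c1c973_an.CircSum

/- Orbits that are unbounded in both directions are dense. -/

namespace Pool.Agent.Lib.MP_c1c973_an.Circ

open Filter Topology

lemma small {K : ℕ} {t d r c : ℝ} (h : r * t ≤ c) (hr : R K ≤ r) (hd : d ≤ K + 3) (ht : 0 ≤ t) :
    d * t ≤ c * (1 / (1000 * ((K : ℝ) + 3))) := by
  have h0 : (0 : ℝ) < (K : ℝ) + 3 := by positivity
  have h1 := mul_le_mul_of_nonneg_right hr ht
  have h2 := mul_le_mul_of_nonneg_right hd ht
  rw [mul_one_div, le_div_iff₀ (by positivity)]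
  have h3 := mul_le_mul_of_nonneg_right h2 (by positivity : (0 : ℝ) ≤ 1000 * ((K : ℝ) + 3))
  unfold R at h1
  nlinarith

lemma R_mono (k : ℕ) : R k ≤ R (k + 1) := by
  have : (0 : ℝ) ≤ k := by positivity
  unfold R; push_cast; nlinarith

lemma nat_cross (G : ℕ → ℝ) (N : ℕ) {r σ : ℝ} (hσ : 0 ≤ σ) (h0 : G 0 ≤ r) (hN : r ≤ G N)
    (hs : ∀ i, i < N → G (i + 1) ≤ G i + σ) : ∃ i, i ≤ N ∧ r ≤ G i ∧ G i ≤ r + σ := by
  induction N with
  | zero => exact ⟨0, le_rfl, hN, by linarith⟩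
  | succ N ih =>
    by_cases h : r ≤ G N
    · obtain ⟨i, h1, h2⟩ := ih h fun i hi => hs i (by omega)
      exact ⟨i, by omega, h2⟩
    · exact ⟨N + 1, le_rfl, hN, by linarith [hs N (Nat.lt_succ_self N), not_le.1 h]⟩

namespace Data

variable (D : Data)

lemma qs (k : ℕ) : R k * (D.q k / D.q (k + 1)) ≤ 1 := by
  rw [← mul_div_assoc, div_le_one (D.q_pos _)]
  exact D.grow k

lemma η_succ_le (k : ℕ) : D.η (k + 1) ≤ D.η k := by
  have h1 := D.η_hi (k + 1)
  have h2 := D.η_lo k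
  have h3 := D.q_le (k + 1)
  have h4 := D.q_pos (k + 1)
  have h5 := D.η_pos (k + 1)
  have h6 := mul_le_mul_of_nonneg_right h3 h5.le
  apply le_of_mul_le_mul_left _ h4
  linarith

lemma fine_step (K : ℕ) {z : ℝ} {u u' : ℤ} (h0 : |D.q K * z - u - 1 / 4| ≤ 1 / 8)
    (h1 : |D.q (K + 1) * z - u' - 1 / 4| ≤ 1 / 8) :
    |D.Ψ z (D.q (K + 1) - D.q K) - 1 / ((K : ℝ) + 2)| ≤ 1 / ((K : ℝ) + 2) / 2 := by
  set w : ℤ := D.q (K + 1) - D.q K with hw
  have q0 := D.q_pos K; have q1 := D.q_pos (K + 1); have q2 := D.q_pos (K + 1 + 1)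
  have e0 := D.η_pos K; have e1 := D.η_pos (K + 1)
  have l0 := D.q_le K
  have m0 := D.qη K; have m1 := D.qη (K + 1)
  have r0 := R_ge K; have r1 := R_ge (K + 1)
  have ee := D.η_succ_le K
  have hK : (0 : ℝ) ≤ K := by positivity
  have d0 : dd K ≤ K + 3 := by linarith [dd_le K]
  have d1 : dd (K + 1) ≤ K + 3 := by have := dd_le (K + 1); push_cast at this; linarith
  have d2 : dd (K + 1 + 1) ≤ K + 3 := by have := dd_le (K + 1 + 1); push_cast at this; linarith
  have hw' : (w : ℝ) = D.q (K + 1) - D.q K := by rw [hw]; push_cast; ring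
  have p0 := mul_pos q0 e0
  have p1 := mul_pos q1 e1
  have p2 := mul_pos q0 e1
  have p3 : D.q K * D.η (K + 1) ≤ D.q K * D.η K := by gcongr
  have p4 : D.q K * D.η (K + 1) ≤ D.q (K + 1) * D.η (K + 1) :=
    mul_le_mul_of_nonneg_right (by linarith) e1.le
  have b0 : D.q K * D.η K ≤ 1 / 8 := by nlinarith
  have b1 : D.q (K + 1) * D.η (K + 1) ≤ 1 / 8 := by nlinarith
  rw [abs_le] at h0 h1
  have a0 : D.ψ K (z + w * D.α) - D.ψ K z = D.c K * D.q K * D.η (K + 1) - dd K := by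
    have t0 : D.q K * (z + w * D.α) - ((u + w * D.p K + 1 : ℤ) : ℝ) =
        D.q K * z - u + (D.q K * D.η (K + 1) - D.q K * D.η K) := by
      have := D.η_det K
      push_cast
      rw [hw']
      unfold η at this ⊢
      linear_combination this
    unfold ψ
    rw [T_lin (a := D.q K * z) (u := u) (by rw [abs_le]; constructor <;> linarith [h0.1, h0.2]),
      T_lin (u := u + w * D.p K + 1)
        (by rw [t0, abs_le]; constructor <;> linarith [h0.1, h0.2]), t0]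
    linear_combination (-(D.q K : ℝ)) * D.c_η K - D.s_q K
  have a1 : D.ψ (K + 1) (z + w * D.α) - D.ψ (K + 1) z = dd (K + 1) - D.s (K + 1) * D.q K := by
    have t0 : D.q (K + 1) * (z + w * D.α) - ((u' + w * D.p (K + 1) : ℤ) : ℝ) =
        D.q (K + 1) * z - u' + (D.q (K + 1) * D.η (K + 1) - D.q K * D.η (K + 1)) := by
      push_cast
      rw [hw']
      unfold η
      ring
    unfold ψ
    rw [T_lin (a := D.q (K + 1) * z) (u := u')
        (by rw [abs_le]; constructor <;> linarith [h1.1, h1.2]),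
      T_lin (u := u' + w * D.p (K + 1))
        (by rw [t0, abs_le]; constructor <;> linarith [h1.1, h1.2]), t0]
    linear_combination ((D.q (K + 1) : ℝ) - D.q K) * D.c_η (K + 1) + D.s_q (K + 1)
  have a2 := D.F_space K (z + w * D.α) z (D.p (K + 1) - D.p K)
  have t2 : z + w * D.α - z - ((D.p (K + 1) - D.p K : ℤ) : ℝ) = -(D.η K - D.η (K + 1)) := by
    push_cast
    rw [hw']
    unfold η
    ring
  rw [t2, abs_neg, abs_of_nonneg (sub_nonneg.2 ee)] at a2
  have a3 := D.split (K + 1 + 1) z w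
  rw [hw', abs_of_nonneg (by linarith : (0 : ℝ) ≤ D.q (K + 1) - D.q K), ← hw'] at a3
  have a4 : D.F (K + 1 + 1) (z + w * D.α) - D.F (K + 1 + 1) z = (D.F K (z + w * D.α) - D.F K z) +
      (D.ψ K (z + w * D.α) - D.ψ K z) + (D.ψ (K + 1) (z + w * D.α) - D.ψ (K + 1) z) := by
    simp only [F, Finset.sum_range_succ]; ring
  have s0 := small m1 (R_mono K) d0 p1.le
  have s1 := small (D.qs K) le_rfl d1 (by positivity)
  have s2 := small m0 le_rfl d0 p0.le
  have s3 := small (D.qs (K + 1)) (R_mono K) d2 (by positivity)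
  set ρ := 1 / (1000 * ((K : ℝ) + 3)) with hρ
  have hρ1 : 18 * ρ ≤ 1 / ((K : ℝ) + 2) := by
    rw [hρ, mul_one_div, div_le_div_iff₀ (by positivity) (by positivity)]
    linarith
  have hdd : dd (K + 1) = dd K + 1 / ((K : ℝ) + 2) := rfl
  have c0 : 0 ≤ D.c K * D.q K * D.η (K + 1) := by have := D.c_pos K; positivity
  have c1 := mul_le_mul_of_nonneg_right (D.c_q K) e1.le
  have c2 : D.s (K + 1) * D.q K = dd (K + 1) * (D.q K / D.q (K + 1)) := by unfold s; ring
  have c3 : 0 ≤ D.s (K + 1) * D.q K := by have := D.s_pos (K + 1); positivity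
  have c4 : D.s (K + 1 + 1) * D.q (K + 1) = dd (K + 1 + 1) * (D.q (K + 1) / D.q (K + 1 + 1)) := by
    unfold s; ring
  have c5 : 0 ≤ D.s (K + 1 + 1) * D.q K := by have := D.s_pos (K + 1 + 1); positivity
  have c6 : 0 ≤ dd K * (D.q K * D.η (K + 1)) := by have := dd_pos K; positivity
  have c7 : (w : ℝ) * D.s (K + 1 + 1) =
      D.s (K + 1 + 1) * D.q (K + 1) - D.s (K + 1 + 1) * D.q K := by rw [hw']; ring
  rw [a4, a0, a1, abs_le] at a3
  rw [abs_le] at a2 ⊢
  constructor <;> linarith [a2.1, a2.2, a3.1, a3.2]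

lemma coarse (M : ℕ) {x : ℝ} (h1 : ¬BddBelow (Set.range (D.Ψ x)))
    (h2 : ¬BddAbove (Set.range (D.Ψ x))) (y A : ℝ) :
    ∃ m u : ℤ, |x + m * D.α - u - y| ≤ 2 / D.q M ∧ A ≤ D.Ψ x m ∧ D.Ψ x m ≤ A + 14 * dd M := by
  choose r u hr hu using fun n : ℤ => D.approx M (x + n * D.α) y
  have q0 := D.q_pos M
  have hd := dd_pos M
  have hE : ∀ n, |D.Ψ x (n + r n) - D.Ψ x n| ≤ 2 * D.q M * D.s 0 := fun n => by
    have h := D.split 0 (x + n * D.α) (r n)
    simp only [F, Finset.range_zero, Finset.sum_empty, sub_self, sub_zero] at h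
    rw [Ψ_add, add_sub_cancel_left]
    have := mul_le_mul_of_nonneg_right (hr n) (D.s_pos 0).le
    linarith
  have hstep : ∀ n, |D.Ψ x (n + 1 + r (n + 1)) - D.Ψ x (n + r n)| ≤ 14 * dd M := fun n => by
    set m : ℤ := 1 + r (n + 1) - r n with hm
    have e1 : n + 1 + r (n + 1) = n + r n + m := by rw [hm]; ring
    rw [e1, Ψ_add, add_sub_cancel_left]
    set z := x + ((n + r n : ℤ) : ℝ) * D.α with hz
    have a1 := D.split M z m
    have a2 := D.F_space M (z + m * D.α) z (u (n + 1) - u n)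
    have a3 : |z + m * D.α - z - ((u (n + 1) - u n : ℤ) : ℝ)| ≤ 2 / D.q M + 2 / D.q M := by
      have b1 := abs_le.1 (hu n)
      have b2 := abs_le.1 (hu (n + 1))
      rw [hm, abs_le]
      push_cast at b2 ⊢
      constructor <;> linarith [b1.1, b1.2, b2.1, b2.2]
    have a4 : 2 * dd M * D.q M * |z + m * D.α - z - ((u (n + 1) - u n : ℤ) : ℝ)| ≤ 8 * dd M := by
      refine (mul_le_mul_of_nonneg_left a3 (by positivity)).trans (le_of_eq ?_)
      field_simp; ring
    have a5 : |(m : ℝ)| ≤ 3 * D.q M := by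
      have b1 := abs_le.1 (hr n)
      have b2 := abs_le.1 (hr (n + 1))
      have b3 := D.one_le M
      rw [hm, abs_le]
      push_cast
      constructor <;> linarith [b1.1, b1.2, b2.1, b2.2]
    have a6 := mul_le_mul_of_nonneg_right a5 (D.s_pos M).le
    have a7 := D.s_q M
    rw [abs_le] at a1 a2 ⊢
    constructor <;> linarith [a1.1, a1.2, a2.1, a2.2]
  obtain ⟨b, hb1, hb2⟩ := int_ivt (fun n => D.Ψ x (n + r n)) (14 * dd M) A hstep (by
      obtain ⟨_, ⟨n, rfl⟩, hn⟩ := not_bddBelow_iff.1 h1 (A - 2 * D.q M * D.s 0)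
      exact ⟨n, by linarith [(abs_le.1 (hE n)).2]⟩) (by
      obtain ⟨_, ⟨n, rfl⟩, hn⟩ := not_bddAbove_iff.1 h2 (A + 2 * D.q M * D.s 0)
      exact ⟨n, by linarith [(abs_le.1 (hE n)).1]⟩)
  refine ⟨b + r b, u b, ?_, hb1, hb2⟩
  have := hu b
  push_cast
  rwa [add_mul, ← add_assoc]

lemma exists_quarter {q : ℝ} (hq : 0 < q) (y : ℝ) :
    ∃ (y' : ℝ) (u : ℤ), q * y' = u + 1 / 4 ∧ q * |y' - y| ≤ 1 := by
  refine ⟨(round (q * y) + 1 / 4) / q, round (q * y), by field_simp, ?_⟩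
  have h := abs_le.1 (abs_sub_round (q * y))
  have h2 : q * (((round (q * y) : ℝ) + 1 / 4) / q - y) = round (q * y) + 1 / 4 - q * y := by
    field_simp
  conv_lhs => rw [← abs_of_pos hq, ← abs_mul, abs_of_pos hq, h2]
  rw [abs_le]
  constructor <;> linarith [h.1, h.2]

theorem dense_core {x : ℝ} (h1 : ¬BddBelow (Set.range (D.Ψ x)))
    (h2 : ¬BddAbove (Set.range (D.Ψ x))) (y r : ℝ) {ε : ℝ} (hε : 0 < ε) :
    ∃ n u : ℤ, |x + n * D.α - u - y| < ε ∧ |D.Ψ x n - r| < ε := by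
  obtain ⟨K, hK⟩ := exists_nat_gt (5 / ε)
  rw [div_lt_iff₀ hε] at hK
  have hK0 : (0 : ℝ) ≤ K := by positivity
  have q0 := D.q_pos K; have q1 := D.q_pos (K + 1); have q2 := D.q_pos (K + 1 + 1)
  have e0 := D.η_pos K; have e1 := D.η_pos (K + 1)
  have l0 := D.q_le K; have l1 := D.q_le (K + 1)
  have ee := D.η_succ_le K
  obtain ⟨y1, u0, hy1, hy1'⟩ := exists_quarter q0 y
  obtain ⟨y2, u1, hy2, hy2'⟩ := exists_quarter q1 y1
  obtain ⟨m, u, hm, hA1, hA2⟩ := D.coarse (K + 1 + 1) h1 h2 y2 (r - 14 * dd (K + 1 + 1))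
  rw [le_div_iff₀' q2] at hm
  set z := x + m * D.α - u with hz
  have z1 : D.q (K + 1) * |z - y2| ≤ 1 / 16 := by nlinarith [abs_nonneg (z - y2)]
  have z2 : D.q K * |z - y2| ≤ 1 / 32 := by nlinarith [abs_nonneg (z - y2)]
  have z3 : D.q K * |y2 - y1| ≤ 1 / 32 := by nlinarith [abs_nonneg (y2 - y1)]
  have z4 : |D.q K * z - u0 - 1 / 4| ≤ 1 / 16 := by
    rw [show D.q K * z - u0 - 1 / 4 = D.q K * (z - y2) + D.q K * (y2 - y1) by
      linear_combination hy1]
    refine (abs_add_le _ _).trans ?_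
    rw [abs_mul, abs_mul, abs_of_pos q0]
    linarith
  have z5 : |D.q (K + 1) * z - u1 - 1 / 4| ≤ 1 / 16 := by
    rw [show D.q (K + 1) * z - u1 - 1 / 4 = D.q (K + 1) * (z - y2) by linear_combination hy2,
      abs_mul, abs_of_pos q1]
    exact z1
  set N : ℕ := 28 * (K + 3) * (K + 2) with hN
  have hN' : (N : ℝ) = 28 * ((K : ℝ) + 3) * ((K : ℝ) + 2) := by rw [hN]; push_cast; ring
  have hNR : 32 * (N : ℝ) ≤ R K := by rw [hN']; unfold R; nlinarith
  have p0 := mul_pos q0 e0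
  have p1 := mul_pos q1 e1
  have p2 := mul_pos q0 e1
  have p3 : D.q K * D.η (K + 1) ≤ D.q K * D.η K := by gcongr
  have p4 : D.q K * D.η (K + 1) ≤ D.q (K + 1) * D.η (K + 1) :=
    mul_le_mul_of_nonneg_right (by linarith) e1.le
  have n0 : (N : ℝ) * (D.q K * D.η K) ≤ 1 / 16 := by
    have := mul_le_mul_of_nonneg_right hNR p0.le
    linarith [D.qη K]
  have n1 : (N : ℝ) * (D.q (K + 1) * D.η (K + 1)) ≤ 1 / 16 := by
    have := mul_le_mul_of_nonneg_right (hNR.trans (R_mono K)) p1.le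
    linarith [D.qη (K + 1)]
  set w : ℤ := D.q (K + 1) - D.q K with hw
  have hpos : ∀ i : ℕ, x + ((m + i * w : ℤ) : ℝ) * D.α = z + i * (D.η (K + 1) - D.η K) +
      ((u + i * (D.p (K + 1) - D.p K) : ℤ) : ℝ) := fun i => by
    rw [hz, hw]; unfold η; push_cast; ring
  have hi0 : ∀ i : ℕ, i ≤ N →
      |(i : ℝ) * (D.q K * D.η (K + 1) - D.q K * D.η K)| ≤ 1 / 16 := fun i hi => by
    have hi' : (i : ℝ) ≤ N := by exact_mod_cast hi
    have hi0 : (0 : ℝ) ≤ i := by positivity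
    rw [abs_mul, abs_of_nonneg hi0, abs_of_nonpos (by linarith)]
    refine le_trans (mul_le_mul hi' (by linarith) (by linarith) (by positivity)) n0
  have hstep : ∀ i : ℕ, i < N → |D.Ψ x (m + ((i + 1 : ℕ) : ℤ) * w) - D.Ψ x (m + i * w) -
      1 / ((K : ℝ) + 2)| ≤ 1 / ((K : ℝ) + 2) / 2 := fun i hi => by
    have hi' : (i : ℝ) ≤ N := by exact_mod_cast hi.le
    have hi1 : (0 : ℝ) ≤ i := by positivity
    rw [show m + ((i + 1 : ℕ) : ℤ) * w = m + i * w + w by push_cast; ring, Ψ_add,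
      add_sub_cancel_left, hpos, Ψ_int]
    refine D.fine_step K (u := u0) (u' := u1 - i) ?_ ?_
    · rw [show D.q K * (z + i * (D.η (K + 1) - D.η K)) - u0 - 1 / 4 = (D.q K * z - u0 - 1 / 4) +
        i * (D.q K * D.η (K + 1) - D.q K * D.η K) by ring]
      refine (abs_add_le _ _).trans ?_
      linarith [hi0 i hi.le]
    · rw [show D.q (K + 1) * (z + i * (D.η (K + 1) - D.η K)) - ((u1 - i : ℤ) : ℝ) - 1 / 4 =
        (D.q (K + 1) * z - u1 - 1 / 4) +
          i * (D.q (K + 1) * D.η (K + 1) - D.q K * D.η (K + 1)) by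
        push_cast; linear_combination (-(i : ℝ)) * D.η_det K]
      refine (abs_add_le _ _).trans ?_
      rw [abs_mul, abs_of_nonneg hi1, abs_of_nonneg (by linarith : (0 : ℝ) ≤
        D.q (K + 1) * D.η (K + 1) - D.q K * D.η (K + 1))]
      have := mul_le_mul hi' (by linarith : D.q (K + 1) * D.η (K + 1) - D.q K * D.η (K + 1) ≤
        D.q (K + 1) * D.η (K + 1)) (by linarith) (by positivity)
      linarith
  set δ := 1 / ((K : ℝ) + 2) with hδ
  have hδ0 : 0 < δ := by positivity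
  have hup : ∀ i : ℕ, i ≤ N → D.Ψ x m + i * (δ / 2) ≤ D.Ψ x (m + i * w) := fun i hi => by
    induction i with
    | zero => simp
    | succ i ih =>
      have a1 := ih (by omega)
      have a2 := (abs_le.1 (hstep i (by omega))).1
      rw [Nat.cast_succ (R := ℝ)]
      linarith
  have hNδ : (N : ℝ) * (δ / 2) = 14 * ((K : ℝ) + 3) := by
    rw [hN', hδ]; field_simp; ring
  have d2 : dd (K + 1 + 1) ≤ K + 3 := by have := dd_le (K + 1 + 1); push_cast at this; linarith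
  obtain ⟨i, hi, hi1, hi2⟩ := nat_cross (fun i => D.Ψ x (m + i * w)) N (r := r) (σ := 2 * δ)
    (by positivity) (by simp only [Nat.cast_zero, zero_mul, add_zero]; linarith)
    (by have := hup N le_rfl; linarith)
    (fun i hi => by have := (abs_le.1 (hstep i hi)).2; linarith)
  refine ⟨m + i * w, u + i * (D.p (K + 1) - D.p K), ?_, ?_⟩
  · rw [hpos]
    have a1 : D.q K * |z + i * (D.η (K + 1) - D.η K) +
        ((u + i * (D.p (K + 1) - D.p K) : ℤ) : ℝ) -
        ((u + i * (D.p (K + 1) - D.p K) : ℤ) : ℝ) - y| ≤ 2 := by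
      conv_lhs => rw [← abs_of_pos q0, ← abs_mul]
      rw [show D.q K * (z + i * (D.η (K + 1) - D.η K) +
        ((u + i * (D.p (K + 1) - D.p K) : ℤ) : ℝ) -
        ((u + i * (D.p (K + 1) - D.p K) : ℤ) : ℝ) - y) = D.q K * (z - y2) + D.q K * (y2 - y1) +
          D.q K * (y1 - y) + i * (D.q K * D.η (K + 1) - D.q K * D.η K) by ring]
      refine (abs_add_le _ _).trans ?_
      have b1 := abs_add_three (D.q K * (z - y2)) (D.q K * (y2 - y1)) (D.q K * (y1 - y))
      rw [abs_mul, abs_mul, abs_mul, abs_of_pos q0] at b1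
      linarith [hi0 i hi]
    have a2 := D.le_q K
    apply lt_of_mul_lt_mul_left _ q0.le
    nlinarith
  · have a1 : 2 * δ < ε := by
      rw [hδ, mul_one_div, div_lt_iff₀ (by positivity)]
      nlinarith
    rw [abs_lt]
    constructor <;> linarith

end Data

end Pool.Agent.Lib.MP_c1c973_an.Circ
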