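import Pool.Agent.Lib.MP_c1c973_an.Sums

/- A Liouville-type rotation number with odd denominators. -/

namespace Pool.Agent.Lib.MP_c1c973_an.Circ

open Filter Topology

/-- growth ratios -/
noncomputable def R (k : ℕ) : ℝ := 1000 * ((k : ℝ) + 3) ^ 2

lemma R_ge (k : ℕ) : 9000 ≤ R k := by
  have : (0 : ℝ) ≤ k := by positivity
  unfold R; nlinarith

/-- a rotation number with a fast sequence of rational approximations -/
structure Data where
  α : ℝ
  q : ℕ → ℤ
  p : ℕ → ℤ
  det : ∀ k, p (k + 1) * q k - p k * q (k + 1) = 1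
  odd : ∀ k, Odd (q k)
  one_le : ∀ k, (1 : ℝ) ≤ q k
  grow : ∀ k, R k * q k ≤ q (k + 1)
  lo : ∀ k, 1 / (q (k + 1) : ℝ) ≤ q k * α - p k
  hi : ∀ k, q k * α - p k ≤ 2 / (q (k + 1) : ℝ)

/-- the recurrence -/
def sq (a b : ℤ) : ℕ → ℤ
  | 0 => a
  | 1 => b
  | k + 2 => 2000 * ((k : ℤ) + 4) ^ 2 * sq a b (k + 1) - sq a b k

lemma sq_det (k : ℕ) : sq 0 1 (k + 1) * sq 1 9001 k - sq 0 1 k * sq 1 9001 (k + 1) = 1 := by
  induction k with
  | zero => simp [sq]
  | succ k ih => simp only [sq]; linear_combination ih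

lemma sq_odd (k : ℕ) : Odd (sq 1 9001 k) ∧ Odd (sq 1 9001 (k + 1)) := by
  induction k with
  | zero => simp only [sq]; decide
  | succ k ih =>
    refine ⟨ih.2, ?_⟩
    simp only [sq]
    refine Even.sub_odd ?_ ih.1
    exact ⟨1000 * ((k : ℤ) + 4) ^ 2 * sq 1 9001 (k + 1), by ring⟩

lemma sq_grow (k : ℕ) : (1 : ℝ) ≤ sq 1 9001 k ∧ R k * sq 1 9001 k ≤ sq 1 9001 (k + 1) := by
  induction k with
  | zero => simp only [sq, R]; norm_num
  | succ k ih =>
    obtain ⟨h1, h2⟩ := ih
    have h3 := R_ge k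
    have h4 := R_ge (k + 1)
    have h5 : (sq 1 9001 k : ℝ) ≤ sq 1 9001 (k + 1) := by nlinarith
    refine ⟨by linarith, ?_⟩
    have h6 : (sq 1 9001 (k + 1 + 1) : ℝ) = 2 * R (k + 1) * sq 1 9001 (k + 1) - sq 1 9001 k := by
      simp only [sq, R]; push_cast; ring
    rw [h6]
    nlinarith

theorem exists_data : Nonempty Data := by
  set q : ℕ → ℝ := fun k => sq 1 9001 k with hq
  set p : ℕ → ℝ := fun k => sq 0 1 k with hp
  have h1 : ∀ k, 1 ≤ q k := fun k => (sq_grow k).1
  have h2 : ∀ k, 2 * q k ≤ q (k + 1) := fun k => by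
    have := (sq_grow k).2
    have := R_ge k
    have := h1 k
    simp only [hq] at *
    nlinarith
  have hdet : ∀ k, p (k + 1) * q k - p k * q (k + 1) = 1 := fun k => by
    simp only [hp, hq]; exact_mod_cast sq_det k
  set t : ℕ → ℝ := fun k => 1 / (q k * q (k + 1)) with ht
  have ht0 : ∀ k, 0 < t k := fun k => by
    have := h1 k; have := h1 (k + 1); simp only [ht]; positivity
  have ht1 : ∀ k, t (k + 1) ≤ t k / 2 := fun k => by
    have a1 := h1 k; have a2 := h2 k; have a3 := h2 (k + 1); have a4 := h1 (k + 1)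
    simp only [ht]
    rw [div_div]
    apply one_div_le_one_div_of_le (by positivity)
    nlinarith
  have ht2 : ∀ K j, t (j + K) ≤ t K * (1 / 2) ^ j := fun K j => by
    induction j with
    | zero => simp
    | succ j ih =>
      have := ht1 (j + K)
      rw [show j + 1 + K = j + K + 1 by ring, pow_succ]
      linarith
  have hs : ∀ K, Summable fun j => t (j + K) := fun K =>
    Summable.of_nonneg_of_le (fun _ => (ht0 _).le) (ht2 K) (summable_geometric_two.mul_left _)
  have hs0 : Summable t := by simpa using hs 0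
  have hpart : ∀ k, ∑ j ∈ Finset.range k, t j = p k / q k := fun k => by
    induction k with
    | zero => simp [hp, sq]
    | succ k ih =>
      have a1 := h1 k; have a2 := h1 (k + 1)
      rw [Finset.sum_range_succ, ih]
      simp only [ht]
      field_simp
      linear_combination (-1 : ℝ) * hdet k
  have heta : ∀ k, q k * (∑' j, t j) - p k = q k * ∑' j, t (j + k) := fun k => by
    have a1 := h1 k
    rw [← hs0.sum_add_tsum_nat_add k, hpart]
    field_simp
    ring
  refine ⟨⟨∑' j, t j, sq 1 9001, sq 0 1, sq_det, fun k => (sq_odd k).1, h1,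
    fun k => (sq_grow k).2, fun k => ?_, fun k => ?_⟩⟩
  · have a1 := h1 k; have a2 := h1 (k + 1)
    have h := (hs k).le_tsum 0 fun j _ => (ht0 _).le
    rw [zero_add] at h
    change 1 / q (k + 1) ≤ q k * (∑' j, t j) - p k
    rw [heta]
    refine le_trans (le_of_eq ?_) (mul_le_mul_of_nonneg_left h (by positivity))
    simp only [ht]
    field_simp
  · have a1 := h1 k; have a2 := h1 (k + 1)
    have h := (hs k).tsum_le_tsum (ht2 k) (summable_geometric_two.mul_left _)
    rw [tsum_mul_left, tsum_geometric_two] at h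
    change q k * (∑' j, t j) - p k ≤ 2 / q (k + 1)
    rw [heta]
    refine le_trans (mul_le_mul_of_nonneg_left h (by positivity)) (le_of_eq ?_)
    simp only [ht]
    field_simp

namespace Data

variable (D : Data)

/-- approximation errors -/
noncomputable def η (k : ℕ) : ℝ := D.q k * D.α - D.p k

lemma q_pos (k : ℕ) : (0 : ℝ) < D.q k := lt_of_lt_of_le one_pos (D.one_le k)

lemma q_le (k : ℕ) : 9000 * (D.q k : ℝ) ≤ D.q (k + 1) :=
  (mul_le_mul_of_nonneg_right (R_ge k) (D.q_pos k).le).trans (D.grow k)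

lemma η_pos (k : ℕ) : 0 < D.η k :=
  lt_of_lt_of_le (by have := D.q_pos (k + 1); positivity) (D.lo k)

lemma η_lo (k : ℕ) : 1 ≤ D.q (k + 1) * D.η k := by
  have h := D.lo k
  rw [div_le_iff₀' (D.q_pos _)] at h
  exact h

lemma η_hi (k : ℕ) : D.q (k + 1) * D.η k ≤ 2 := by
  have h := D.hi k
  rw [le_div_iff₀' (D.q_pos _)] at h
  exact h

lemma η_det (k : ℕ) : D.q (k + 1) * D.η k = D.q k * D.η (k + 1) + 1 := by
  have h : (D.p (k + 1) : ℝ) * D.q k - D.p k * D.q (k + 1) = 1 := by exact_mod_cast D.det k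
  unfold η
  linear_combination h

lemma le_q (k : ℕ) : (k : ℝ) + 1 ≤ D.q k := by
  induction k with
  | zero => simpa using D.one_le 0
  | succ k ih =>
    have := D.q_le k
    have : (0 : ℝ) ≤ k := by positivity
    push_cast; linarith

/-- `R k * (q k * η k) ≤ 2` -/
lemma qη (k : ℕ) : R k * (D.q k * D.η k) ≤ 2 := by
  have h := mul_le_mul_of_nonneg_right (D.grow k) (D.η_pos k).le
  have := D.η_hi k
  nlinarith

lemma irrational : Irrational D.α := by
  rintro ⟨r, hr⟩
  have hd : (0 : ℝ) < r.den := by exact_mod_cast r.den_pos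
  have h1 : (r.den : ℝ) * D.α = r.num := by
    rw [← hr, Rat.cast_def]; field_simp
  have h2 := D.η_pos (2 * r.den)
  have h3 := D.η_hi (2 * r.den)
  have h4 := D.le_q (2 * r.den + 1)
  have h5 : (r.den : ℝ) * D.η (2 * r.den) =
      ((D.q (2 * r.den) * r.num - r.den * D.p (2 * r.den) : ℤ) : ℝ) := by
    unfold η; push_cast; linear_combination (D.q (2 * r.den) : ℝ) * h1
  have h6 : (0 : ℝ) < ((D.q (2 * r.den) * r.num - r.den * D.p (2 * r.den) : ℤ) : ℝ) := by
    rw [← h5]; positivity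
  have h7 : (1 : ℝ) ≤ ((D.q (2 * r.den) * r.num - r.den * D.p (2 * r.den) : ℤ) : ℝ) := by
    exact_mod_cast (by exact_mod_cast h6 : (0 : ℤ) < _)
  push_cast at h4
  nlinarith

/-- the orbit comes close to any point in a short time -/
lemma approx (K : ℕ) (x y : ℝ) :
    ∃ n u : ℤ, |(n : ℝ)| ≤ D.q K ∧ |x + n * D.α - u - y| ≤ 2 / D.q K := by
  have hq := D.q_pos K
  have hq' : 0 < D.q K := by exact_mod_cast hq
  set r := round (D.q K * (y - x)) with hr
  set n := (-r * D.q (K + 1)) % D.q K with hn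
  set v := (-r * D.q (K + 1)) / D.q K with hv
  have h0 : 0 ≤ n := Int.emod_nonneg _ hq'.ne'
  have h1 : n < D.q K := Int.emod_lt_of_pos _ hq'
  have h2 : n + D.q K * v = -r * D.q (K + 1) := Int.emod_add_mul_ediv _ _
  have h3 : n * D.p K = r + D.q K * (-r * D.p (K + 1) - v * D.p K) := by
    linear_combination D.p K * h2 + r * D.det K
  have h0' : (0 : ℝ) ≤ n := by exact_mod_cast h0
  have h1' : (n : ℝ) ≤ D.q K := by exact_mod_cast h1.le
  refine ⟨n, -r * D.p (K + 1) - v * D.p K, by rwa [abs_of_nonneg h0'], ?_⟩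
  have h3' : (n : ℝ) * D.p K = r + D.q K * (-r * D.p (K + 1) - v * D.p K) := by exact_mod_cast h3
  have h4 := abs_sub_round (D.q K * (y - x))
  rw [← hr, abs_le] at h4
  have h5 : D.q K * (x + n * D.α - ((-r * D.p (K + 1) - v * D.p K : ℤ) : ℝ) - y) =
      n * D.η K - (D.q K * (y - x) - r) := by
    unfold η; push_cast; linear_combination h3'
  have h6 := D.qη K
  have h7 := R_ge K
  have h8 := D.η_pos K
  have h9 : n * D.η K ≤ D.q K * D.η K := by gcongr
  have h10 : 0 ≤ n * D.η K := by positivity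
  have h11 : D.q K * D.η K ≤ 1 := by nlinarith [mul_pos hq h8]
  rw [le_div_iff₀' hq, ← abs_of_pos hq, ← abs_mul, h5, abs_le]
  constructor <;> linarith [h4.1, h4.2]

end Data

end Pool.Agent.Lib.MP_c1c973_an.Circ
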