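import Pool.Agent.Lib.MP_c1c973_an.CircSeq

/- The cocycle over the circle rotation and its orbits that are bounded on one side. -/

namespace Pool.Agent.Lib.MP_c1c973_an.Circ

open Filter Topology

lemma T_int (y : ℝ) (z : ℤ) : tent 1 (y + z) = tent 1 y := by simpa using tent_add_int 1 y z

lemma T_le (y : ℝ) (z : ℤ) : tent 1 y ≤ |y - z| := by
  rw [← T_int y (-z)]
  simpa [sub_eq_add_neg] using tent_le_abs 1 (y + (-z : ℤ))

lemma T_sub (a b : ℝ) (z : ℤ) : |tent 1 a - tent 1 b| ≤ |a - b - z| := by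
  rw [← T_int b z]
  simpa [sub_sub] using tent_sub_le 1 a (b + z)

lemma T_lin {a : ℝ} {u : ℤ} (h : |a - u - 1 / 4| ≤ 1 / 4) : tent 1 a = a - u := by
  rw [abs_le] at h
  have h1 : tent 1 a = tent 1 (a - u) := by
    rw [← T_int (a - u) u, sub_add_cancel]
  have h2 : 0 ≤ a - u := by linarith [h.1]
  rw [h1, tent_eq_abs one_pos (by rw [abs_of_nonneg h2]; linarith [h.2]), abs_of_nonneg h2]

lemma T_rep (y : ℝ) : ∃ u : ℤ, |y - u| = tent 1 y := by
  obtain ⟨z, hz⟩ := exists_rep one_pos y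
  refine ⟨-z, ?_⟩
  rw [← tent_add_int 1 y z, tent_eq_abs one_pos hz]
  simp

lemma dd_mono (k : ℕ) : dd k ≤ dd (k + 1) := by
  have : 0 ≤ 1 / ((k : ℝ) + 2) := by positivity
  simp only [dd]; linarith

lemma dd_pos (k : ℕ) : 0 < dd k := lt_of_lt_of_le one_pos (one_le_dd k)

namespace Data

variable (D : Data)

/-- heights -/
noncomputable def c (k : ℕ) : ℝ := dd k / (D.q k * D.η k)

/-- slopes in time -/
noncomputable def s (k : ℕ) : ℝ := dd k / D.q k

/-- tent functions -/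
noncomputable def ψ (k : ℕ) (x : ℝ) : ℝ := D.c k * tent 1 (D.q k * x)

/-- finite sums of tent functions -/
noncomputable def F (K : ℕ) (x : ℝ) : ℝ := ∑ j ∈ Finset.range K, D.ψ j x

/-- Birkhoff sums of the cocycle -/
noncomputable def Ψ (x : ℝ) (n : ℤ) : ℝ := ∑' j, (D.ψ j (x + n * D.α) - D.ψ j x)

lemma c_pos (k : ℕ) : 0 < D.c k := by
  have := D.q_pos k; have := D.η_pos k; have := dd_pos k
  unfold c; positivity

lemma s_pos (k : ℕ) : 0 < D.s k := by
  have := D.q_pos k; have := dd_pos k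
  unfold s; positivity

lemma c_η (k : ℕ) : D.c k * D.η k = D.s k := by
  have := D.q_pos k; have := D.η_pos k
  unfold c s; field_simp

lemma s_q (k : ℕ) : D.s k * D.q k = dd k := by
  have := D.q_pos k
  unfold s; field_simp

lemma c_q (k : ℕ) : D.c k * D.q k ≤ dd k * D.q (k + 1) := by
  have h1 := D.q_pos k; have h2 := D.η_pos k; have h3 := dd_pos k
  have h4 : D.c k * D.q k = dd k / D.η k := by unfold c; field_simp
  rw [h4, div_le_iff₀ h2, mul_assoc]
  exact le_mul_of_one_le_right h3.le (D.η_lo k)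

lemma ψ_nonneg (k : ℕ) (x : ℝ) : 0 ≤ D.ψ k x := mul_nonneg (D.c_pos k).le (tent_nonneg _ _)

lemma ψ_int (k : ℕ) (x : ℝ) (u : ℤ) : D.ψ k (x + u) = D.ψ k x := by
  unfold ψ
  rw [mul_add, ← Int.cast_mul, T_int]

lemma ψ_time (k : ℕ) (x : ℝ) (n : ℤ) : |D.ψ k (x + n * D.α) - D.ψ k x| ≤ |(n : ℝ)| * D.s k := by
  unfold ψ
  rw [← mul_sub, abs_mul, abs_of_pos (D.c_pos k), ← D.c_η]
  have h := T_sub (D.q k * (x + n * D.α)) (D.q k * x) (n * D.p k)
  have h2 : D.q k * (x + n * D.α) - D.q k * x - ((n * D.p k : ℤ) : ℝ) = n * D.η k := by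
    unfold η; push_cast; ring
  rw [h2, abs_mul, abs_of_pos (D.η_pos k)] at h
  have := mul_le_mul_of_nonneg_left h (D.c_pos k).le
  linarith

lemma ψ_space (k : ℕ) (x y : ℝ) (u : ℤ) :
    |D.ψ k x - D.ψ k y| ≤ dd k * D.q (k + 1) * |x - y - u| := by
  unfold ψ
  rw [← mul_sub, abs_mul, abs_of_pos (D.c_pos k)]
  have h := T_sub (D.q k * x) (D.q k * y) (D.q k * u)
  have h2 : D.q k * x - D.q k * y - ((D.q k * u : ℤ) : ℝ) = D.q k * (x - y - u) := by
    push_cast; ring
  rw [h2, abs_mul, abs_of_pos (D.q_pos k)] at h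
  have h3 := mul_le_mul_of_nonneg_left h (D.c_pos k).le
  have h4 := mul_le_mul_of_nonneg_right (D.c_q k) (abs_nonneg (x - y - u))
  linarith

lemma F_space (K : ℕ) (x y : ℝ) (u : ℤ) :
    |D.F K x - D.F K y| ≤ 2 * dd K * D.q K * |x - y - u| := by
  induction K with
  | zero =>
    have := D.q_pos 0; have := dd_pos 0
    simp only [F, Finset.range_zero, Finset.sum_empty, sub_self, abs_zero]
    positivity
  | succ K ih =>
    have h1 := D.ψ_space K x y u
    have h2 : D.F (K + 1) x - D.F (K + 1) y = (D.F K x - D.F K y) + (D.ψ K x - D.ψ K y) := by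
      simp only [F, Finset.sum_range_succ]; ring
    have h3 := D.q_le K
    have h4 := D.q_pos K
    have h5 := dd_pos K
    have h6 := dd_mono K
    have h7 : 2 * dd K * D.q K + dd K * D.q (K + 1) ≤ 2 * dd (K + 1) * D.q (K + 1) := by
      nlinarith [mul_pos h5 h4]
    have h8 := mul_le_mul_of_nonneg_right h7 (abs_nonneg (x - y - u))
    rw [h2]
    refine (abs_add_le _ _).trans ?_
    linarith

lemma F_zero (K : ℕ) : D.F K 0 = 0 := by simp [F, ψ, tent]

lemma ψ_le_F {k K : ℕ} (h : k < K) (x : ℝ) : D.ψ k x ≤ D.F K x :=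
  Finset.single_le_sum (f := fun j => D.ψ j x) (fun j _ => D.ψ_nonneg j x) (Finset.mem_range.2 h)

lemma s_succ (k : ℕ) : D.s (k + 1) ≤ D.s k / 2 := by
  have h1 := D.q_pos k; have h2 := D.q_le k; have h3 := dd_succ_le k; have h4 := dd_pos k
  have h5 := D.q_pos (k + 1)
  unfold s
  rw [div_div, div_le_div_iff₀ h5 (by positivity)]
  nlinarith [mul_pos h4 h1]

lemma s_add (K j : ℕ) : D.s (j + K) ≤ D.s K * (1 / 2) ^ j := by
  induction j with
  | zero => simp
  | succ j ih =>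
    have := D.s_succ (j + K)
    rw [show j + 1 + K = j + K + 1 by ring, pow_succ]
    linarith

lemma summable_s (K : ℕ) : Summable fun j => D.s (j + K) :=
  Summable.of_nonneg_of_le (fun _ => (D.s_pos _).le) (D.s_add K)
    (summable_geometric_two.mul_left _)

lemma summable_Ψ (x : ℝ) (n : ℤ) : Summable fun j => D.ψ j (x + n * D.α) - D.ψ j x :=
  Summable.of_norm_bounded ((by simpa using D.summable_s 0 : Summable D.s).mul_left |(n : ℝ)|)
    fun j => D.ψ_time j x n

lemma split (K : ℕ) (x : ℝ) (n : ℤ) :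
    |D.Ψ x n - (D.F K (x + n * D.α) - D.F K x)| ≤ 2 * |(n : ℝ)| * D.s K := by
  have h1 := (D.summable_Ψ x n).sum_add_tsum_nat_add K
  have h2 : D.Ψ x n - (D.F K (x + n * D.α) - D.F K x) =
      ∑' j, (D.ψ (j + K) (x + n * D.α) - D.ψ (j + K) x) := by
    unfold Ψ F
    rw [← h1, Finset.sum_sub_distrib]; ring
  rw [h2]
  have h3 := tsum_of_norm_bounded (f := fun j => D.ψ (j + K) (x + n * D.α) - D.ψ (j + K) x)
    ((hasSum_geometric_two.mul_left (D.s K)).mul_left |(n : ℝ)|) fun j =>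
      (D.ψ_time (j + K) x n).trans (mul_le_mul_of_nonneg_left (D.s_add K j) (abs_nonneg _))
  rw [Real.norm_eq_abs] at h3
  linarith

lemma Ψ_zero (x : ℝ) : D.Ψ x 0 = 0 := by simp [Ψ]

lemma Ψ_add (x : ℝ) (n m : ℤ) : D.Ψ x (n + m) = D.Ψ x n + D.Ψ (x + n * D.α) m := by
  unfold Ψ
  rw [← (D.summable_Ψ x n).tsum_add (D.summable_Ψ _ m)]
  congr 1
  funext j
  rw [show x + ((n + m : ℤ) : ℝ) * D.α = x + n * D.α + m * D.α by push_cast; ring]
  ring

lemma Ψ_int (x : ℝ) (u n : ℤ) : D.Ψ (x + u) n = D.Ψ x n := by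
  unfold Ψ
  congr 1
  funext j
  rw [add_right_comm, ψ_int, ψ_int]

lemma ψ_half (k : ℕ) (x : ℝ) : D.ψ k (x - 1 / 2) = D.c k / 2 - D.ψ k x := by
  obtain ⟨m, hm⟩ := D.odd k
  have h1 : D.q k * (x - 1 / 2) = (D.q k * x - 1 / 2) + ((-m : ℤ) : ℝ) := by
    rw [hm]; push_cast; ring
  have h2 := tent_add_half one_pos (D.q k * x)
  unfold ψ
  rw [h1, T_int]
  linear_combination D.c k * h2

lemma Ψ_half (x : ℝ) (n : ℤ) : D.Ψ (x - 1 / 2) n = -D.Ψ x n := by
  unfold Ψ
  rw [← tsum_neg]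
  congr 1
  funext j
  rw [show x - 1 / 2 + n * D.α = x + n * D.α - 1 / 2 by ring, ψ_half, ψ_half]
  ring

lemma tent_le_of_bdd {x B : ℝ} (hB : 0 ≤ B) (h : ∀ n, -B ≤ D.Ψ x n) (k : ℕ) :
    tent 1 (D.q k * x) ≤ (B + 12) * (D.q k * D.η k) := by
  obtain ⟨n, u, hn, hu⟩ := D.approx (k + 1) x 0
  have h1 := (abs_le.1 (D.split (k + 1) x n)).2
  have h2 := (abs_le.1 (D.F_space (k + 1) (x + n * D.α) 0 u)).2
  have hq := D.q_pos (k + 1)
  have hd := dd_pos (k + 1)
  rw [F_zero, show x + n * D.α - 0 - u = x + n * D.α - u - 0 by ring] at h2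
  have h3 : 2 * dd (k + 1) * D.q (k + 1) * |x + n * D.α - u - 0| ≤ 4 * dd (k + 1) := by
    refine (mul_le_mul_of_nonneg_left hu (by positivity)).trans (le_of_eq ?_)
    field_simp; ring
  have h4 : 2 * |(n : ℝ)| * D.s (k + 1) ≤ 2 * dd (k + 1) := by
    have := mul_le_mul_of_nonneg_right hn (D.s_pos (k + 1)).le
    have := D.s_q (k + 1)
    linarith
  have h5 := D.ψ_le_F (Nat.lt_succ_self k) x
  have h6 := dd_succ_le k
  have h7 := one_le_dd k
  have h8 : D.ψ k x ≤ (B + 12) * dd k := by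
    have := h n
    nlinarith
  have hqk := D.q_pos k
  have hη := D.η_pos k
  unfold ψ c at h8
  rw [div_mul_eq_mul_div, div_le_iff₀ (by positivity)] at h8
  nlinarith

lemma F_le_of_bdd {x B : ℝ} (hB : 0 ≤ B) (h : ∀ n, -B ≤ D.Ψ x n) (K : ℕ) :
    D.F (K + 1) x ≤ 2 * B + 12 := by
  set C := B + 12 with hC
  have hC0 : 0 < C := by linarith
  obtain ⟨u, hu⟩ := T_rep (D.q K * x)
  obtain ⟨u', hu'⟩ := T_rep (D.q (K + 1) * x)
  have ha := D.tent_le_of_bdd hB h K
  have ha' := D.tent_le_of_bdd hB h (K + 1)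
  rw [← hu, ← hC] at ha
  rw [← hu', ← hC] at ha'
  set a := D.q K * x - u with had
  set a' := D.q (K + 1) * x - u' with had'
  have q0 := D.q_pos K; have q1 := D.q_pos (K + 1); have q2 := D.q_pos (K + 1 + 1)
  have e0 := D.η_pos K; have e1 := D.η_pos (K + 1)
  have g0 := D.η_hi K; have g1 := D.η_hi (K + 1)
  have l0 := D.q_le K; have l1 := D.q_le (K + 1)
  have hdet : (D.p (K + 1) : ℝ) * D.q K - D.p K * D.q (K + 1) = 1 := by exact_mod_cast D.det K
  set n : ℤ := D.q (K + 1) * u - D.q K * u' with hn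
  have hn1 : (n : ℝ) = D.q K * a' - D.q (K + 1) * a := by
    rw [hn, had, had']; push_cast; ring
  have hn2 : x + n * D.α - 0 - ((D.p (K + 1) * u - D.p K * u' : ℤ) : ℝ) =
      D.η K * a' - D.η (K + 1) * a := by
    rw [hn1, had, had']; unfold η; push_cast
    linear_combination (-x) * hdet
  have m1 : D.q (K + 1) * D.η (K + 1) ≤ 2 := by nlinarith
  have m0 : D.q K * D.η K ≤ 2 := by nlinarith
  have hn3 : |(n : ℝ)| ≤ 4 * C * D.q K := by
    rw [hn1]
    refine (abs_sub _ _).trans ?_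
    rw [abs_mul, abs_mul, abs_of_pos q0, abs_of_pos q1]
    have b1 : D.q K * |a'| ≤ D.q K * (C * 2) := by
      refine mul_le_mul_of_nonneg_left (ha'.trans ?_) q0.le
      gcongr
    have b2 : D.q (K + 1) * |a| ≤ D.q K * (C * 2) := by
      refine (mul_le_mul_of_nonneg_left ha q1.le).trans ?_
      have := mul_le_mul_of_nonneg_left g0 (mul_pos q0 hC0).le
      linarith
    linarith
  have hn4 : |D.η K * a' - D.η (K + 1) * a| ≤ 4 * C * D.η (K + 1) := by
    refine (abs_sub _ _).trans ?_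
    rw [abs_mul, abs_mul, abs_of_pos e0, abs_of_pos e1]
    have b1 : D.η K * |a'| ≤ D.η (K + 1) * (C * 2) := by
      refine (mul_le_mul_of_nonneg_left ha' e0.le).trans ?_
      have := mul_le_mul_of_nonneg_left g0 (mul_pos e1 hC0).le
      linarith
    have b2 : D.η (K + 1) * |a| ≤ D.η (K + 1) * (C * 2) := by
      refine mul_le_mul_of_nonneg_left (ha.trans ?_) e1.le
      gcongr
    linarith
  have h1 := (abs_le.1 (D.split (K + 1) x n)).2
  have h2 := (abs_le.1 (D.F_space (K + 1) (x + n * D.α) 0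
    (D.p (K + 1) * u - D.p K * u'))).2
  rw [F_zero, hn2] at h2
  have hd := dd_pos (K + 1)
  have hd2 := dd_le (K + 1)
  have hK : (0 : ℝ) ≤ K := by positivity
  push_cast at hd2
  have h3 : 2 * dd (K + 1) * D.q (K + 1) * |D.η K * a' - D.η (K + 1) * a| ≤ C / 2 := by
    refine (mul_le_mul_of_nonneg_left hn4 (by positivity)).trans ?_
    have r1 := D.qη (K + 1)
    have r2 : 32 * dd (K + 1) ≤ R (K + 1) := by unfold R; push_cast; nlinarith
    have r3 := mul_le_mul_of_nonneg_right r2 (mul_pos q1 e1).le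
    have r4 : dd (K + 1) * (D.q (K + 1) * D.η (K + 1)) ≤ 1 / 16 := by linarith
    have := mul_le_mul_of_nonneg_left r4 hC0.le
    linarith
  have h4 : 2 * |(n : ℝ)| * D.s (K + 1) ≤ C / 2 := by
    have r1 := D.grow K
    have r2 : 16 * dd (K + 1) ≤ R K := by unfold R; nlinarith
    have r3 := mul_le_mul_of_nonneg_right r2 q0.le
    have r4 : D.q K * D.s (K + 1) ≤ 1 / 16 := by
      unfold s
      rw [← mul_div_assoc, div_le_iff₀ q1]
      linarith
    have r5 := mul_le_mul_of_nonneg_right hn3 (D.s_pos (K + 1)).le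
    have := mul_le_mul_of_nonneg_left r4 hC0.le
    linarith
  have := h n
  linarith

lemma exists_lev {y : ℝ} {k0 : ℕ} (h : (D.q k0 : ℝ) ≤ y) :
    ∃ k, k0 ≤ k ∧ (D.q k : ℝ) ≤ y ∧ y ≤ D.q (k + 1) := by
  by_contra hcon
  push Not at hcon
  have hall : ∀ j, (D.q (k0 + j) : ℝ) ≤ y := fun j => by
    induction j with
    | zero => exact h
    | succ j ih => exact (hcon _ (Nat.le_add_right _ _) ih).le
  obtain ⟨j, hj⟩ := exists_nat_gt y
  have h1 := hall j
  have h2 := D.le_q (k0 + j)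
  have h3 : (0 : ℝ) ≤ k0 := by positivity
  push_cast at h2
  linarith

lemma tendsto_of_F_le {x S : ℝ} (h : ∀ K, D.F (K + 1) x ≤ S) :
    Tendsto (D.Ψ x) cofinite atTop := by
  rw [tendsto_atTop]
  intro M
  obtain ⟨k0, hk0⟩ := eventually_atTop.1 (tendsto_atTop.1 dd_tendsto (4 * (M + 2 * S + 1)))
  rw [eventually_cofinite]
  refine (Set.finite_Icc (-D.q k0) (D.q k0)).subset fun n hn => ?_
  by_contra hcon
  apply hn
  have h1 : (D.q k0 : ℝ) ≤ 4 * |(n : ℝ)| := by
    have : D.q k0 ≤ |n| := by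
      rw [Set.mem_Icc, ← abs_le] at hcon
      exact (not_le.1 hcon).le
    have h2 : (D.q k0 : ℝ) ≤ |(n : ℝ)| := by exact_mod_cast this
    linarith [abs_nonneg (n : ℝ)]
  obtain ⟨k, hk, hk1, hk2⟩ := D.exists_lev h1
  have q0 := D.q_pos k; have q1 := D.q_pos (k + 1); have q2 := D.q_pos (k + 1 + 1)
  have e0 := D.η_pos k
  have h2 := (abs_le.1 (D.split (k + 1 + 1) x n)).1
  have h3 : 2 * |(n : ℝ)| * D.s (k + 1 + 1) ≤ 1 := by
    have r1 := D.grow (k + 1)
    have hd2 := dd_le (k + 1 + 1)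
    have hK : (0 : ℝ) ≤ k := by positivity
    push_cast at hd2
    have r2 : dd (k + 1 + 1) ≤ R (k + 1) := by unfold R; push_cast; nlinarith
    have r3 := mul_le_mul_of_nonneg_right r2 q1.le
    have r4 : D.q (k + 1) * D.s (k + 1 + 1) ≤ 1 := by
      unfold s
      rw [← mul_div_assoc, div_le_iff₀ q2]
      linarith
    have r5 := mul_le_mul_of_nonneg_right hk2 (D.s_pos (k + 1 + 1)).le
    linarith
  have h4 := D.ψ_le_F (show k < k + 1 + 1 by omega) (x + n * D.α)
  have h5 := D.ψ_le_F (Nat.lt_succ_self k) x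
  have h6 : dd k / 4 ≤ D.ψ k (x + n * D.α) + D.ψ k x := by
    have t1 : tent 1 (n * D.η k) = |(n : ℝ)| * D.η k := by
      rw [tent_eq_abs one_pos, abs_mul, abs_of_pos e0]
      rw [abs_mul, abs_of_pos e0]
      have := mul_le_mul_of_nonneg_right hk2 e0.le
      have := D.η_hi k
      linarith
    have t2 : tent 1 (n * D.η k) ≤ tent 1 (D.q k * (x + n * D.α)) + tent 1 (D.q k * x) := by
      have t3 : (n : ℝ) * D.η k = (D.q k * (x + n * D.α) - D.q k * x) + ((-(n * D.p k) : ℤ) : ℝ) := by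
        unfold η; push_cast; ring
      rw [t3, T_int]
      unfold tent
      rw [AddCircle.coe_sub]
      exact norm_sub_le _ _
    have t4 := mul_le_mul_of_nonneg_left t2 (D.c_pos k).le
    have t5 := D.c_η k
    have t6 := D.s_q k
    have t7 := mul_le_mul_of_nonneg_right hk1 (D.s_pos k).le
    rw [t1] at t4
    unfold ψ
    have t8 : D.c k * (|(n : ℝ)| * D.η k) = |(n : ℝ)| * D.s k := by rw [← t5]; ring
    linarith
  have h7 := hk0 k hk
  have h8 := h k
  have h9 := h (k + 1)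
  change M ≤ D.Ψ x n
  linarith

lemma not_bdd_quarter {x : ℝ} (hx : x = 1 / 4 ∨ x = 1 / 4 - 1 / 2) :
    ¬BddBelow (Set.range (D.Ψ x)) := by
  rintro ⟨b, hb⟩
  have h1 : ∀ n, -|b| ≤ D.Ψ x n := fun n => (neg_abs_le b).trans (hb ⟨n, rfl⟩)
  obtain ⟨k, hk⟩ := exists_nat_gt (|b| + 12)
  have h2 := D.tent_le_of_bdd (abs_nonneg b) h1 k
  have h3 : tent 1 (D.q k * (1 / 4)) = 1 / 4 := by
    obtain ⟨m, hm⟩ := D.odd k
    rcases Int.even_or_odd' m with ⟨l, hl | hl⟩
    · rw [T_lin (u := l)] <;> rw [hm, hl] <;> push_cast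
      · ring
      · rw [abs_le]; constructor <;> linarith
    · have h4 := tent_add_half one_pos (D.q k * (1 / 4))
      rw [T_lin (a := D.q k * (1 / 4) - 1 / 2) (u := l)] at h4
      · rw [hm, hl] at h4 ⊢
        push_cast at h4 ⊢
        linarith
      · rw [hm, hl]; push_cast
        rw [abs_le]; constructor <;> linarith
  have h4 : tent 1 (D.q k * x) = 1 / 4 := by
    rcases hx with rfl | rfl
    · exact h3
    · have h5 := D.ψ_half k (1 / 4)
      unfold ψ at h5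
      rw [h3] at h5
      have := D.c_pos k
      apply mul_left_cancel₀ this.ne'
      linarith
  have h5 := D.qη k
  have h6 := mul_pos (D.q_pos k) (D.η_pos k)
  have hK : (0 : ℝ) ≤ k := by positivity
  have h7 : 1000 * (k : ℝ) ≤ R k := by unfold R; nlinarith
  have h8 := mul_le_mul_of_nonneg_right h7 h6.le
  have h9 := mul_le_mul_of_nonneg_right hk.le h6.le
  linarith

end Data

end Pool.Agent.Lib.MP_c1c973_an.Circ
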