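import Pool.Agent.Lib.MP_c1c973_an.Sums

/- Orbits with Birkhoff sums unbounded on both sides are dense. -/

namespace Pool.Agent.Lib.MP_c1c973_an

open Filter Topology

lemma tent_congr {k : ℕ} {a b : ℤ} (h : (qq k : ℤ) ∣ a - b) : tent (qq k) a = tent (qq k) b := by
  obtain ⟨c, hc⟩ := h
  have : (a : ℝ) = b + c * qq k := by
    have h2 : a = b + c * qq k := by linarith
    exact_mod_cast h2
  rw [this, tent_add_int]

lemma qq_dvd_int {k l : ℕ} (h : k ≤ l) : (qq k : ℤ) ∣ qq l := Int.natCast_dvd_natCast.2 (qq_dvd h)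

lemma num_err {s q R J x : ℝ} (hs : 0 < s) (hq : 0 < q) (hJ : 0 < J) (hR : 10 * J ^ 4 ≤ R)
    (hd : s * (q * R) ≤ J) (hx : x ≤ 2 * J ^ 2 * q) : s * x ≤ 1 / (5 * J) := by
  have h7 : s * q * (10 * J ^ 4) ≤ s * q * R := mul_le_mul_of_nonneg_left hR (by positivity)
  have h9 : s * q * (10 * J ^ 3) * J ≤ 1 * J := by
    calc s * q * (10 * J ^ 3) * J = s * q * (10 * J ^ 4) := by ring
      _ ≤ s * q * R := h7
      _ = s * (q * R) := by ring
      _ ≤ 1 * J := by linarith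
  have h10 := le_of_mul_le_mul_right h9 hJ
  rw [le_div_iff₀ (by positivity)]
  calc s * x * (5 * J) ≤ s * (2 * J ^ 2 * q) * (5 * J) := by gcongr
    _ = s * q * (10 * J ^ 3) := by ring
    _ ≤ 1 := h10

lemma num_half {q R J x : ℝ} (hq : 0 < q) (hJ : 3 ≤ J) (hR : 10 * J ^ 4 ≤ R)
    (hx : x ≤ 2 * J ^ 2 * q) : x ≤ q * R / 2 := by
  have hJ4 : 4 * J ^ 2 ≤ 10 * J ^ 4 := by nlinarith [sq_nonneg J, sq_nonneg (J ^ 2 - 1)]
  have : 4 * J ^ 2 * q ≤ R * q := mul_le_mul_of_nonneg_right (hJ4.trans hR) hq.le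
  linarith

lemma num_floor {w c δ a : ℝ} (hδ : 0 < δ) (hc : δ * c = 1) (h1 : a ≤ w * c) (h2 : w * c < a + 1) :
    a * δ ≤ w ∧ w ≤ a * δ + δ := by
  have e : w * c * δ = w := by rw [mul_assoc, mul_comm c, hc, mul_one]
  have h3 := mul_le_mul_of_nonneg_right h1 hδ.le
  have h4 := mul_le_mul_of_nonneg_right h2.le hδ.le
  rw [e] at h3 h4
  constructor <;> linarith

lemma unbounded_case (u : ℕ → ℤ) (hu : ∀ k l, k ≤ l → (qq (k + 1) : ℤ) ∣ u l - u k)
    (h1 : ¬BddBelow (Set.range (FF fun k => (u k : ℝ))))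
    (h2 : ¬BddAbove (Set.range (FF fun k => (u k : ℝ))))
    (i : ℕ) (r : ℤ) (t ε : ℝ) (hε : 0 < ε) :
    ∃ n : ℤ, (qq (i + 1) : ℤ) ∣ u i + n - r ∧ |FF (fun k => (u k : ℝ)) n - t| < ε := by
  set F := FF fun k => (u k : ℝ) with hF
  obtain ⟨j0, hj0⟩ := exists_nat_gt (2 / ε)
  set j := max j0 (i + 1) with hj
  have hji : i + 1 ≤ j := le_max_right _ _
  have hjε : 2 / ((j : ℝ) + 2) < ε := by
    have : (j0 : ℝ) ≤ j := by exact_mod_cast le_max_left j0 (i + 1)
    rw [div_lt_iff₀ hε] at hj0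
    rw [div_lt_iff₀ (by positivity)]
    have h3 : (j0 : ℝ) * ε ≤ ((j : ℝ) + 2) * ε := mul_le_mul_of_nonneg_right (by linarith) hε.le
    linarith
  have hj0' : (0 : ℝ) ≤ j := Nat.cast_nonneg j
  -- the residue
  have hqi : (0 : ℤ) < qq (i + 1) := by exact_mod_cast qq_pos (i + 1)
  set r0 : ℤ := r % qq (i + 1) with hr0
  have hr0a : 0 ≤ r0 := Int.emod_nonneg _ hqi.ne'
  have hr0b : r0 < qq (i + 1) := Int.emod_lt_of_pos _ hqi
  have hr0c : (qq (i + 1) : ℤ) ∣ r0 - r := by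
    rw [hr0]
    exact Int.dvd_emod_sub_self
  have hr0R : (0 : ℝ) ≤ r0 := by exact_mod_cast hr0a
  have hr0R' : (r0 : ℝ) ≤ qq j := by
    have h3 : (r0 : ℝ) ≤ qq (i + 1) := by exact_mod_cast hr0b.le
    exact h3.trans (qq_mono hji)
  -- valley times
  set nb : ℤ → ℤ := fun b => -u (j + 1) + b * qq (j + 2) with hnb
  have hval : ∀ b k, k ≤ j + 1 → (qq (k + 1) : ℤ) ∣ u k + nb b := by
    intro b k hk
    have h3 := hu k (j + 1) hk
    have h4 := qq_dvd_int (show k + 1 ≤ j + 2 by omega)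
    have : u k + nb b = -(u (j + 1) - u k) + b * qq (j + 2) := by simp only [hnb]; ring
    rw [this]
    exact dvd_add h3.neg_right (h4.mul_left b)
  have hsplit : ∀ b m : ℤ, |F (nb b + m) - F (nb b)
      - ∑ k ∈ Finset.range (j + 2), ss k * tent (qq (k + 1)) m|
      ≤ |(m : ℝ)| * (3 / 2 * ss (j + 2)) := by
    intro b m
    have h3 := FF_split (fun k => (u k : ℝ)) (nb b) (nb b + m) (j + 2)
    have h4 : ∑ k ∈ Finset.range (j + 2), ss k * (tent (qq (k + 1)) (u k + ((nb b + m : ℤ) : ℝ))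
        - tent (qq (k + 1)) (u k + ((nb b : ℤ) : ℝ)))
        = ∑ k ∈ Finset.range (j + 2), ss k * tent (qq (k + 1)) m := by
      refine Finset.sum_congr rfl fun k hk => ?_
      have hk' : k ≤ j + 1 := by have := Finset.mem_range.1 hk; omega
      have h5 := hval b k hk'
      have h6 : tent (qq (k + 1)) ((u k + (nb b + m) : ℤ) : ℝ) = tent (qq (k + 1)) m :=
        tent_congr (by
          have : u k + (nb b + m) - m = u k + nb b := by ring
          rw [this]; exact h5)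
      have h7 : tent (qq (k + 1)) ((u k + nb b : ℤ) : ℝ) = tent (qq (k + 1)) ((0 : ℤ) : ℝ) :=
        tent_congr (by simpa using h5)
      have h8 : tent (qq (k + 1)) ((0 : ℤ) : ℝ) = 0 := by simp [tent]
      rw [h8] at h7
      push_cast at h6 h7 ⊢
      rw [h6, h7, sub_zero]
    rw [h4] at h3
    simpa using h3
  set v : ℤ → ℝ := fun b => F (nb b) with hv
  have hdd2 : dd (j + 2) ≤ j + 3 := by have := dd_le (j + 2); push_cast at this; linarith
  have hdd1 : dd (j + 1) ≤ j + 3 := by have := dd_le (j + 1); push_cast at this; linarith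
  have hstep : ∀ b, |v (b + 1) - v b| ≤ 2 * ((j : ℝ) + 3) := by
    intro b
    have h3 := hsplit b (qq (j + 2))
    have h4 : ∑ k ∈ Finset.range (j + 2), ss k * tent (qq (k + 1)) ((qq (j + 2) : ℤ) : ℝ) = 0 := by
      refine Finset.sum_eq_zero fun k hk => ?_
      have hk' : k + 1 ≤ j + 2 := by have := Finset.mem_range.1 hk; omega
      have h7 : tent (qq (k + 1)) ((qq (j + 2) : ℤ) : ℝ) = tent (qq (k + 1)) ((0 : ℤ) : ℝ) :=
        tent_congr (by simpa using qq_dvd_int hk')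
      rw [h7]
      simp [tent]
    rw [h4, sub_zero] at h3
    have h5 : nb (b + 1) = nb b + qq (j + 2) := by simp only [hnb]; ring
    simp only [hv]
    rw [h5]
    refine h3.trans ?_
    have h6 := ss_mul_qq (j + 2)
    rw [Int.cast_natCast, abs_of_pos (qq_pos _)]
    have h7 : (qq (j + 2) : ℝ) * (3 / 2 * ss (j + 2)) = 3 / 2 * dd (j + 2) := by rw [← h6]; ring
    rw [h7]
    linarith
  have hnear : ∀ n : ℤ, ∃ b, |F n - v b| ≤ qq (j + 2) * (3 / 2) := by
    intro n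
    have hq : (0 : ℤ) < qq (j + 2) := by exact_mod_cast qq_pos (j + 2)
    refine ⟨(n + u (j + 1)) / qq (j + 2), ?_⟩
    refine (FF_lip _ _ _).trans (mul_le_mul_of_nonneg_right ?_ (by norm_num))
    have h3 : n - nb ((n + u (j + 1)) / qq (j + 2)) = (n + u (j + 1)) % qq (j + 2) := by
      simp only [hnb]
      have := Int.mul_ediv_add_emod (n + u (j + 1)) (qq (j + 2))
      linarith
    have h4 := Int.emod_nonneg (n + u (j + 1)) hq.ne'
    have h5 := Int.emod_lt_of_pos (n + u (j + 1)) hq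
    have h6 : |n - nb ((n + u (j + 1)) / qq (j + 2))| ≤ qq (j + 2) := by
      rw [h3, abs_of_nonneg h4]; exact h5.le
    exact_mod_cast h6
  -- constants
  set N : ℕ := 2 * (j + 3) * (j + 2) with hN
  have hNR : (N : ℝ) = 2 * ((j : ℝ) + 3) * ((j : ℝ) + 2) := by rw [hN]; push_cast; ring
  set C : ℝ := ∑ k ∈ Finset.range j, ss k * tent (qq (k + 1)) r0 + ss j * r0 + ss (j + 1) * r0
    with hC
  set A : ℝ := t - C - N * dd j - 2 * ((j : ℝ) + 3) with hA
  obtain ⟨b, hb1, hb2⟩ := int_ivt v (2 * ((j : ℝ) + 3)) A hstep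
    (by
      by_contra hcon
      push Not at hcon
      refine h1 ⟨A - qq (j + 2) * (3 / 2), ?_⟩
      rintro _ ⟨n, rfl⟩
      obtain ⟨b, hb⟩ := hnear n
      have := hcon b
      have := (abs_le.1 hb).1
      linarith)
    (by
      by_contra hcon
      push Not at hcon
      refine h2 ⟨A + qq (j + 2) * (3 / 2), ?_⟩
      rintro _ ⟨n, rfl⟩
      obtain ⟨b, hb⟩ := hnear n
      have := hcon b
      have := (abs_le.1 hb).2
      linarith)
  set w : ℝ := t - C - N * dd j - v b with hw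
  have hw0 : 0 ≤ w := by rw [hw]; rw [hA] at hb2; linarith
  have hw1 : w ≤ 2 * ((j : ℝ) + 3) := by rw [hw]; rw [hA] at hb1; linarith
  set a : ℕ := ⌊w * ((j : ℝ) + 2)⌋₊ with ha
  have ha1 : (a : ℝ) ≤ w * ((j : ℝ) + 2) := Nat.floor_le (by positivity)
  have ha2 : w * ((j : ℝ) + 2) < a + 1 := Nat.lt_floor_add_one _
  have haN : a ≤ N := by
    have : (a : ℝ) ≤ N := by
      rw [hNR]
      exact ha1.trans (mul_le_mul_of_nonneg_right hw1 (by positivity))
    exact_mod_cast this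
  obtain ⟨a', ha'⟩ := Nat.exists_eq_add_of_le haN
  have ha'R : (N : ℝ) = a + a' := by rw [ha']; push_cast; ring
  have ha0 : (0 : ℝ) ≤ a := Nat.cast_nonneg a
  have ha'0 : (0 : ℝ) ≤ a' := Nat.cast_nonneg a'
  set m : ℤ := r0 + a * qq (j + 1) + a' * qq j with hm
  have hmR : (m : ℝ) = r0 + a * qq (j + 1) + a' * qq j := by rw [hm]; push_cast; ring
  have hqj := qq_pos j
  have hqj1 := qq_pos (j + 1)
  have hqj2 := qq_pos (j + 2)
  have hRj := RR_ge j
  have hRj1 := RR_ge (j + 1)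
  have hRj1' : 10 * ((j : ℝ) + 3) ^ 4 ≤ RR (j + 1) := by
    refine le_trans ?_ hRj1
    push_cast
    gcongr
    linarith
  have hq1 : (qq (j + 1) : ℝ) = qq j * RR j := by rw [qq_succ]; push_cast; ring
  have hq2 : (qq (j + 2) : ℝ) = qq (j + 1) * RR (j + 1) := by rw [qq_succ]; push_cast; ring
  set J : ℝ := (j : ℝ) + 3 with hJ
  have hJ3 : 3 ≤ J := by linarith
  have hNJ : (N : ℝ) + 1 ≤ 2 * J ^ 2 := by
    rw [hNR]
    have : (j : ℝ) + 2 = J - 1 := by rw [hJ]; ring
    rw [this]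
    have : 2 * J * (J - 1) + 1 = 2 * J ^ 2 - (2 * J - 1) := by ring
    rw [this]
    linarith
  have hle01 : (qq j : ℝ) ≤ qq (j + 1) := qq_mono (by omega)
  have hm0 : (0 : ℝ) ≤ m := by rw [hmR]; positivity
  have hm1 : (m : ℝ) ≤ 2 * J ^ 2 * qq (j + 1) := by
    have h3 : (a' : ℝ) * qq j ≤ a' * qq (j + 1) := mul_le_mul_of_nonneg_left hle01 ha'0
    have h4 : ((N : ℝ) + 1) * qq (j + 1) ≤ 2 * J ^ 2 * qq (j + 1) :=
      mul_le_mul_of_nonneg_right hNJ hqj1.le
    rw [hmR]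
    have h5 : ((N : ℝ) + 1) * qq (j + 1) = a * qq (j + 1) + a' * qq (j + 1) + qq (j + 1) := by
      rw [ha'R]; ring
    linarith
  have hm2 : (r0 : ℝ) + a' * qq j ≤ 2 * J ^ 2 * qq j := by
    have h4 : ((N : ℝ) + 1) * qq j ≤ 2 * J ^ 2 * qq j := mul_le_mul_of_nonneg_right hNJ hqj.le
    have h5 : ((N : ℝ) + 1) * qq j = a * qq j + a' * qq j + qq j := by
      rw [ha'R]; ring
    have h6 : (0 : ℝ) ≤ a * qq j := by positivity
    linarith
  have hG : ∑ k ∈ Finset.range (j + 2), ss k * tent (qq (k + 1)) m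
      = C + a' * dd j + a * dd (j + 1) + ss (j + 1) * (a' * qq j) := by
    rw [Finset.sum_range_succ, Finset.sum_range_succ]
    have e1 : ∑ k ∈ Finset.range j, ss k * tent (qq (k + 1)) m
        = ∑ k ∈ Finset.range j, ss k * tent (qq (k + 1)) r0 := by
      refine Finset.sum_congr rfl fun k hk => ?_
      have hk' : k + 1 ≤ j := by have := Finset.mem_range.1 hk; omega
      rw [tent_congr (a := m) (b := r0)]
      have : m - r0 = a * qq (j + 1) + a' * qq j := by rw [hm]; ring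
      rw [this]
      exact dvd_add ((qq_dvd_int (by omega)).mul_left _) ((qq_dvd_int hk').mul_left _)
    have e2 : tent (qq (j + 1)) m = r0 + a' * qq j := by
      rw [tent_congr (a := m) (b := r0 + a' * qq j)]
      · push_cast
        have h0 : (0 : ℝ) ≤ r0 + a' * qq j := by positivity
        rw [tent_eq_abs hqj1, abs_of_nonneg h0]
        rw [abs_of_nonneg h0, hq1]
        exact num_half hqj hJ3 hRj hm2
      · have : m - (r0 + a' * qq j) = a * qq (j + 1) := by rw [hm]; ring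
        rw [this]
        exact dvd_mul_left _ _
    have e3 : tent (qq (j + 1 + 1)) m = m := by
      rw [tent_eq_abs hqj2, abs_of_nonneg hm0]
      rw [abs_of_nonneg hm0, hq2]
      exact num_half hqj1 hJ3 hRj1' hm1
    rw [e1, e2, e3, hmR, hC, ← ss_mul_qq j, ← ss_mul_qq (j + 1)]
    ring
  refine ⟨nb b + m, ?_, ?_⟩
  · have h3 := hval b i (by omega)
    have : u i + (nb b + m) - r = (u i + nb b) + (r0 - r) + (a * qq (j + 1) + a' * qq j) := by
      rw [hm]; ring
    rw [this]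
    exact dvd_add (dvd_add h3 hr0c)
      (dvd_add ((qq_dvd_int (by omega)).mul_left _) ((qq_dvd_int hji).mul_left _))
  · have h3 := hsplit b m
    rw [hG, abs_of_nonneg hm0] at h3
    have hJ0 : 0 < J := by linarith
    have hs1 := ss_pos (j + 1)
    have hs2 := ss_pos (j + 2)
    have err1 : ss (j + 1) * (a' * qq j) ≤ 1 / (5 * J) := by
      refine num_err hs1 hqj hJ0 hRj ?_ (by linarith)
      rw [← hq1, ss_mul_qq]
      exact hdd1
    have err2' : ss (j + 2) * m ≤ 1 / (5 * J) := by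
      refine num_err hs2 hqj1 hJ0 hRj1' ?_ hm1
      rw [← hq2, ss_mul_qq]
      exact hdd2
    have err2 : (m : ℝ) * (3 / 2 * ss (j + 2)) ≤ 3 / (10 * J) := by
      have h4 : (m : ℝ) * (3 / 2 * ss (j + 2)) = 3 / 2 * (ss (j + 2) * m) := by ring
      have h5 : 3 / (10 * J) = 3 / 2 * (1 / (5 * J)) := by field_simp; norm_num
      rw [h4, h5]
      linarith
    have hδ : dd (j + 1) = dd j + 1 / ((j : ℝ) + 2) := rfl
    set δ : ℝ := 1 / ((j : ℝ) + 2) with hδ'
    have hδ0 : 0 < δ := by positivity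
    have hδ1 : δ * ((j : ℝ) + 2) = 1 := by rw [hδ']; field_simp
    obtain ⟨hwa1, hwa2⟩ := num_floor hδ0 hδ1 ha1 ha2
    have hJδ : 1 / (5 * J) + 3 / (10 * J) ≤ δ := by
      have h4 : 1 / (5 * J) + 3 / (10 * J) = 1 / (2 * J) := by field_simp; norm_num
      rw [h4, hδ']
      apply one_div_le_one_div_of_le (by positivity)
      linarith
    have hε2 : 2 * δ < ε := by
      rw [hδ']
      have : 2 * (1 / ((j : ℝ) + 2)) = 2 / ((j : ℝ) + 2) := by ring
      linarith
    have herr0 : 0 ≤ ss (j + 1) * (a' * qq j) := by positivity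
    have hvb : F (nb b) = v b := rfl
    rw [hvb, hδ] at h3
    have h4 := abs_le.1 h3
    have h5 : t = w + C + (a + a') * dd j + v b := by rw [hw, ha'R]; ring
    have h6 : 0 ≤ 1 / (5 * J) := by positivity
    have h7 : (a : ℝ) * (dd j + δ) = a * dd j + a * δ := by ring
    have h8 : ((a : ℝ) + a') * dd j = a * dd j + a' * dd j := by ring
    rw [h7] at h4
    rw [abs_lt, h5, h8]
    constructor <;> linarith [h4.1, h4.2]

end Pool.Agent.Lib.MP_c1c973_an
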