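import Pool.Agent.Lib.MP_c1c973_an.Tent

/- The Birkhoff sums along an orbit, described through residues, and the two key lemmas. -/

namespace Pool.Agent.Lib.MP_c1c973_an

open Filter Topology

/-- the Birkhoff sum at time `n` of a point with residues `u k` modulo `qq (k+1)` -/
noncomputable def FF (u : ℕ → ℝ) (n : ℤ) : ℝ :=
  ∑' k, ss k * (tent (qq (k + 1)) (u k + n) - tent (qq (k + 1)) (u k))

/-- compatibility of consecutive residues -/
def Compat (u : ℕ → ℝ) : Prop := ∀ k, ∃ z : ℤ, u (k + 1) = u k + z * qq (k + 1)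

lemma term_le (k : ℕ) (a b : ℝ) :
    |ss k * (tent (qq (k + 1)) a - tent (qq (k + 1)) b)| ≤ |a - b| * ss k := by
  rw [abs_mul, abs_of_pos (ss_pos k), mul_comm]
  exact mul_le_mul_of_nonneg_right (tent_sub_le _ _ _) (ss_pos k).le

lemma summable_term (u : ℕ → ℝ) (a b : ℝ) :
    Summable fun k => ss k * (tent (qq (k + 1)) (u k + a) - tent (qq (k + 1)) (u k + b)) := by
  refine Summable.of_norm_bounded (summable_ss.mul_left |a - b|) fun k => ?_
  have := term_le k (u k + a) (u k + b)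
  simpa using this

lemma summable_FF (u : ℕ → ℝ) (a : ℝ) :
    Summable fun k => ss k * (tent (qq (k + 1)) (u k + a) - tent (qq (k + 1)) (u k)) := by
  simpa using summable_term u a 0

lemma FF_zero (u : ℕ → ℝ) : FF u 0 = 0 := by simp [FF]

lemma FF_sub (u : ℕ → ℝ) (n n' : ℤ) : FF u n' - FF u n =
    ∑' k, ss k * (tent (qq (k + 1)) (u k + n') - tent (qq (k + 1)) (u k + n)) := by
  unfold FF
  rw [← (summable_FF u n').tsum_sub (summable_FF u n)]
  congr 1
  ext k
  ring

lemma FF_split (u : ℕ → ℝ) (n n' : ℤ) (K : ℕ) :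
    |FF u n' - FF u n - ∑ k ∈ Finset.range K,
      ss k * (tent (qq (k + 1)) (u k + n') - tent (qq (k + 1)) (u k + n))|
      ≤ |(n' : ℝ) - n| * (3 / 2 * ss K) := by
  rw [FF_sub, ← (summable_term u n' n).sum_add_tsum_nat_add K, add_sub_cancel_left]
  have hs := (summable_ss_add K).mul_left |(n' : ℝ) - n|
  have h1 : ‖∑' i, ss (i + K) * (tent (qq (i + K + 1)) (u (i + K) + n')
      - tent (qq (i + K + 1)) (u (i + K) + n))‖ ≤ ∑' i, |(n' : ℝ) - n| * ss (i + K) := by
    refine tsum_of_norm_bounded hs.hasSum fun i => ?_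
    have := term_le (i + K) (u (i + K) + n') (u (i + K) + n)
    simpa using this
  rw [Real.norm_eq_abs, tsum_mul_left] at h1
  exact h1.trans (mul_le_mul_of_nonneg_left (tsum_ss_add_le K) (abs_nonneg _))

lemma FF_lip (u : ℕ → ℝ) (n n' : ℤ) : |FF u n' - FF u n| ≤ |(n' : ℝ) - n| * (3 / 2) := by
  simpa [ss_zero] using FF_split u n n' 0

lemma Compat.of_le {u : ℕ → ℝ} (hu : Compat u) {k l : ℕ} (h : k ≤ l) :
    ∃ z : ℤ, u l = u k + z * qq (k + 1) := by
  induction l, h using Nat.le_induction with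
  | base => exact ⟨0, by simp⟩
  | succ l hl ih =>
    obtain ⟨z, hz⟩ := ih
    obtain ⟨w, hw⟩ := hu l
    obtain ⟨c, hc⟩ := qq_dvd (show k + 1 ≤ l + 1 by omega)
    refine ⟨z + w * c, ?_⟩
    rw [hw, hz, hc]
    push_cast
    ring

lemma FF_congr {u v : ℕ → ℝ} (h : ∀ k, ∃ z : ℤ, v k = u k + z * qq (k + 1)) : FF v = FF u := by
  ext n
  unfold FF
  congr 1
  ext k
  obtain ⟨z, hz⟩ := h k
  rw [hz, tent_add_int]
  have : u k + z * qq (k + 1) + n = (u k + n) + z * qq (k + 1) := by ring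
  rw [this, tent_add_int]

/-- if the symmetric residues jump at level `k`, the Birkhoff sums get very negative -/
lemma exists_FF_le {w : ℕ → ℝ} (hw : Compat w) (hb : ∀ k, |w k| ≤ qq (k + 1) / 2) (k : ℕ)
    (hk : w (k + 1) ≠ w k) : ∃ n : ℤ, FF w n ≤ 2 - dd (k + 1) / 4 := by
  have hbig : (qq (k + 1) : ℝ) / 2 ≤ |w (k + 1)| := by
    obtain ⟨z, hz⟩ := hw k
    have hz0 : z ≠ 0 := by
      rintro rfl
      exact hk (by simpa using hz)
    have h1 : (1 : ℝ) ≤ |(z : ℝ)| := by
      have : 1 ≤ |z| := Int.one_le_abs hz0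
      exact_mod_cast this
    have h2 : |(z : ℝ) * qq (k + 1)| ≤ |w (k + 1)| + |w k| := by
      have : (z : ℝ) * qq (k + 1) = w (k + 1) - w k := by rw [hz]; ring
      rw [this]
      exact abs_sub _ _
    rw [abs_mul, abs_of_pos (qq_pos _)] at h2
    have h3 := hb k
    have h4 := qq_pos (k + 1)
    nlinarith
  refine ⟨-round (w (k + 1)), ?_⟩
  set n : ℤ := -round (w (k + 1)) with hn
  have hv : |w (k + 1) + n| ≤ 1 / 2 := by
    have := abs_sub_round (w (k + 1))
    simpa [hn, sub_eq_add_neg] using this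
  have hnabs : |(n : ℝ)| ≤ |w (k + 1)| + 1 / 2 := by
    have : (n : ℝ) = (w (k + 1) + n) - w (k + 1) := by ring
    rw [this]
    have := abs_sub (w (k + 1) + n) (w (k + 1))
    linarith
  have hsplit := FF_split w 0 n (k + 2)
  simp only [FF_zero, Int.cast_zero, sub_zero, add_zero] at hsplit
  have hterm : ∀ l ∈ Finset.range (k + 1),
      ss l * (tent (qq (l + 1)) (w l + n) - tent (qq (l + 1)) (w l)) ≤ ss l * (1 / 2) := by
    intro l hl
    have hl' : l ≤ k + 1 := by have := Finset.mem_range.1 hl; omega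
    obtain ⟨z, hz⟩ := hw.of_le hl'
    have h1 : tent (qq (l + 1)) (w l + n) ≤ 1 / 2 := by
      rw [← tent_add_int _ _ z]
      have : w l + n + z * qq (l + 1) = w (k + 1) + n := by rw [hz]; ring
      rw [this]
      exact (tent_le_abs _ _).trans hv
    have h2 := tent_nonneg (qq (l + 1)) (w l)
    exact mul_le_mul_of_nonneg_left (by linarith) (ss_pos l).le
  have hsum := Finset.sum_le_sum hterm
  rw [← Finset.sum_mul] at hsum
  have hlast : ss (k + 1) * (tent (qq (k + 1 + 1)) (w (k + 1) + n)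
      - tent (qq (k + 1 + 1)) (w (k + 1))) ≤ ss (k + 1) * (1 / 2 - |w (k + 1)|) := by
    rw [tent_eq_abs (qq_pos _) (hb (k + 1))]
    have := (tent_le_abs (qq (k + 1 + 1)) _).trans hv
    exact mul_le_mul_of_nonneg_left (by linarith) (ss_pos _).le
  rw [Finset.sum_range_succ] at hsplit
  have h5 := sum_ss_le (k + 2)
  rw [Finset.sum_range_succ] at h5
  have h6 := ss_succ_le (k + 1)
  have h7 := ss_pos (k + 1)
  have h7' := ss_pos (k + 2)
  have h8 := ss_mul_qq (k + 1)
  have h9 : |(n : ℝ)| * (3 / 2 * ss (k + 2)) ≤ (|w (k + 1)| + 1 / 2) * (ss (k + 1) / 2) := by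
    apply mul_le_mul hnabs (by linarith) (by positivity) (by positivity)
  have h10 := (abs_le.1 hsplit).2
  have h11 : ss (k + 1) * (qq (k + 1) / 2) ≤ ss (k + 1) * |w (k + 1)| :=
    mul_le_mul_of_nonneg_left hbig h7.le
  have h12 : 0 ≤ ∑ l ∈ Finset.range (k + 1), ss l := Finset.sum_nonneg fun l _ => (ss_pos l).le
  nlinarith

lemma exists_level {y : ℝ} {k0 : ℕ} (h : (qq k0 : ℝ) / 2 ≤ y) :
    ∃ k, k0 ≤ k ∧ (qq k : ℝ) / 2 ≤ y ∧ y ≤ qq (k + 1) / 2 := by
  classical
  have hex : ∃ k, k0 ≤ k ∧ y ≤ qq (k + 1) / 2 := by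
    obtain ⟨N, hN⟩ := exists_nat_ge (2 * y)
    refine ⟨max k0 N, le_max_left _ _, ?_⟩
    have h1 := le_qq (max k0 N + 1)
    have h2 : (N : ℝ) ≤ ((max k0 N + 1 : ℕ) : ℝ) := by
      exact_mod_cast (le_max_right k0 N).trans (Nat.le_succ _)
    linarith
  refine ⟨Nat.find hex, (Nat.find_spec hex).1, ?_, (Nat.find_spec hex).2⟩
  rcases (Nat.find_spec hex).1.eq_or_lt with h0 | h0
  · rw [← h0]; exact h
  · obtain ⟨j, hj⟩ : ∃ j, Nat.find hex = j + 1 := ⟨Nat.find hex - 1, by omega⟩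
    have hmin := Nat.find_min hex (show j < Nat.find hex by omega)
    rw [hj]
    by_contra hc
    exact hmin ⟨by omega, by linarith⟩

/-- eventually constant residues give Birkhoff sums tending to infinity -/
lemma tendsto_of_const {w : ℕ → ℝ} (hb : ∀ k, |w k| ≤ qq (k + 1) / 2) {k0 : ℕ} {c : ℝ}
    (hc : ∀ k, k0 ≤ k → w k = c) : Tendsto (FF w) cofinite atTop := by
  set A : ℝ := max |c| (qq k0) with hA
  have hwA : ∀ k, |w k| ≤ A := by
    intro k
    rcases le_or_gt k0 k with h | h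
    · rw [hc k h]; exact le_max_left _ _
    · have h1 := hb k
      have h2 := qq_mono (show k + 1 ≤ k0 by omega)
      have h3 := qq_pos (k + 1)
      have h4 : (qq k0 : ℝ) ≤ A := le_max_right _ _
      linarith
  have hA0 : 0 ≤ A := (abs_nonneg c).trans (le_max_left _ _)
  have hlow : ∀ (n : ℤ) (k : ℕ), k0 ≤ k →
      ss k * tent (qq (k + 1)) (c + n) - A * (3 / 2) ≤ FF w n := by
    intro n k hk
    have hs1 : Summable fun l => ss l * (tent (qq (l + 1)) (w l + n) - tent (qq (l + 1)) (w l))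
        + A * ss l := (summable_FF w n).add (summable_ss.mul_left A)
    have hnn : ∀ l, ss l * tent (qq (l + 1)) (w l + n) ≤
        ss l * (tent (qq (l + 1)) (w l + n) - tent (qq (l + 1)) (w l)) + A * ss l := by
      intro l
      have h1 := (tent_le_abs (qq (l + 1)) (w l)).trans (hwA l)
      have h2 := ss_pos l
      nlinarith
    have h1 := hs1.le_tsum k fun l _ =>
      (mul_nonneg (ss_pos l).le (tent_nonneg _ _)).trans (hnn l)
    rw [(summable_FF w n).tsum_add (summable_ss.mul_left A), tsum_mul_left] at h1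
    have h2 := hnn k
    rw [hc k hk] at h1 h2
    have h3 := tsum_ss_add_le 0
    simp only [add_zero, ss_zero, mul_one] at h3
    have h4 : A * ∑' l, ss l ≤ A * (3 / 2) := mul_le_mul_of_nonneg_left h3 hA0
    unfold FF
    linarith
  rw [tendsto_atTop]
  intro B
  obtain ⟨k1, hk1⟩ := eventually_atTop.1 (tendsto_atTop.1 dd_tendsto (2 * (B + A * (3 / 2))))
  set k2 := max k0 k1 with hk2
  obtain ⟨N, hN⟩ := exists_nat_ge ((qq k2 : ℝ) / 2 + |c|)
  rw [eventually_cofinite]
  refine (Set.finite_Icc (-(N : ℤ)) N).subset fun n hn => ?_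
  by_contra hcon
  apply hn
  have hn1 : (N : ℝ) ≤ |(n : ℝ)| := by
    have : (N : ℤ) ≤ |n| := by
      simp only [Set.mem_Icc, not_and_or, not_le] at hcon
      rcases hcon with h | h
      · rw [abs_of_neg (by omega)]; omega
      · rw [abs_of_pos (by omega)]; omega
    exact_mod_cast this
  have hn2 : (qq k2 : ℝ) / 2 ≤ |c + n| := by
    have : |(n : ℝ)| ≤ |c + n| + |c| := by
      have h := abs_sub (c + n) c
      simpa using h
    linarith
  obtain ⟨k, hk, h1, h2⟩ := exists_level hn2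
  have h3 := hlow n k ((le_max_left _ _).trans hk)
  rw [tent_eq_abs (qq_pos _) (by simpa using h2)] at h3
  have h4 := hk1 k ((le_max_right _ _).trans hk)
  have h5 := ss_mul_qq k
  have h6 : ss k * (qq k / 2) ≤ ss k * |c + n| := mul_le_mul_of_nonneg_left h1 (ss_pos k).le
  show B ≤ FF w n
  nlinarith

/-- orbits whose Birkhoff sums are bounded below are discrete -/
lemma bddBelow_case {u : ℕ → ℝ} (hu : Compat u) (hb : BddBelow (Set.range (FF u))) :
    (∃ k0 : ℕ, ∃ c : ℝ, ∀ k, k0 ≤ k → ∃ z : ℤ, u k = c + z * qq (k + 1)) ∧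
      Tendsto (FF u) cofinite atTop := by
  choose z hz using fun k => exists_rep (qq_pos (k + 1)) (u k)
  set w : ℕ → ℝ := fun k => u k + z k * qq (k + 1) with hw
  have hF : FF w = FF u := FF_congr fun k => ⟨z k, rfl⟩
  have hwc : Compat w := by
    intro k
    obtain ⟨y, hy⟩ := hu k
    refine ⟨y + z (k + 1) * RR (k + 1) - z k, ?_⟩
    simp only [hw]
    rw [hy, qq_succ (k + 1)]
    push_cast
    ring
  obtain ⟨m, hm⟩ := hb
  have hm' : ∀ n, m ≤ FF w n := fun n => by rw [hF]; exact hm ⟨n, rfl⟩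
  obtain ⟨k1, hk1⟩ := eventually_atTop.1 (tendsto_atTop.1 dd_tendsto (4 * (3 - m)))
  have hconst : ∀ k, k1 ≤ k → w (k + 1) = w k := by
    intro k hk
    by_contra hne
    obtain ⟨n, hn⟩ := exists_FF_le hwc hz k hne
    have h1 := hk1 (k + 1) (by omega)
    have h2 := hm' n
    linarith
  have hc : ∀ k, k1 ≤ k → w k = w k1 := by
    intro k hk
    induction k, hk using Nat.le_induction with
    | base => rfl
    | succ k hk ih => rw [hconst k hk, ih]
  refine ⟨⟨k1, w k1, fun k hk => ⟨-z k, ?_⟩⟩, ?_⟩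
  · rw [← hc k hk]
    simp only [hw]
    push_cast
    ring
  · rw [← hF]
    exact tendsto_of_const hz hc

/-- the mirrored residues -/
lemma FF_mirror (u : ℕ → ℝ) (n : ℤ) : FF (fun k => u k - qq (k + 1) / 2) n = -FF u n := by
  unfold FF
  rw [← tsum_neg]
  congr 1
  ext k
  have h1 := tent_add_half (qq_pos (k + 1)) (u k)
  have h2 := tent_add_half (qq_pos (k + 1)) (u k + n)
  have h3 : u k - qq (k + 1) / 2 + n = u k + n - qq (k + 1) / 2 := by ring
  rw [h3]
  have h4 : tent (qq (k + 1)) (u k + n - qq (k + 1) / 2) - tent (qq (k + 1)) (u k - qq (k + 1) / 2)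
      = -(tent (qq (k + 1)) (u k + n) - tent (qq (k + 1)) (u k)) := by linarith
  rw [h4]
  ring

lemma Compat.mirror {u : ℕ → ℝ} (hu : Compat u) : Compat fun k => u k - qq (k + 1) / 2 := by
  intro k
  obtain ⟨z, hz⟩ := hu k
  obtain ⟨c, hc⟩ := RR_odd (k + 1)
  refine ⟨z - c, ?_⟩
  simp only
  rw [hz, qq_succ (k + 1), hc]
  push_cast
  ring

lemma int_ivt (v : ℤ → ℝ) (D A : ℝ) (hD : ∀ b, |v (b + 1) - v b| ≤ D)
    (h1 : ∃ b, v b < A) (h2 : ∃ b, A ≤ v b) : ∃ b, A ≤ v b ∧ v b ≤ A + D := by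
  by_contra hcon
  push Not at hcon
  obtain ⟨b1, hb1⟩ := h1
  obtain ⟨b2, hb2⟩ := h2
  have hall : ∀ b, v b < A := by
    intro b
    induction b using Int.inductionOn' (b := b1) with
    | zero => exact hb1
    | succ k _ ih =>
      by_contra h
      have h3 := hcon (k + 1) (not_lt.1 h)
      have h4 := (abs_le.1 (hD k)).2
      linarith
    | pred k _ ih =>
      by_contra h
      have h3 := hcon (k - 1) (not_lt.1 h)
      have h4 := (abs_le.1 (hD (k - 1))).1
      rw [sub_add_cancel] at h4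
      linarith
  exact absurd (hall b2) (not_lt.2 hb2)

end Pool.Agent.Lib.MP_c1c973_an
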