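import Mathlib

/- Tent (triangular wave) functions and the numerical sequences of the construction. -/

namespace Pool.Agent.Lib.MP_c1c973_an

open Filter Topology

/-- distance from `y` to the lattice `q ℤ` -/
noncomputable def tent (q y : ℝ) : ℝ := ‖(y : AddCircle q)‖

lemma tent_nonneg (q y : ℝ) : 0 ≤ tent q y := norm_nonneg _

lemma tent_add_int (q y : ℝ) (z : ℤ) : tent q (y + z * q) = tent q y := by
  unfold tent
  have h : ((z * q : ℝ) : AddCircle q) = 0 := by
    rw [AddCircle.coe_eq_zero_iff]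
    exact ⟨z, by simp⟩
  rw [AddCircle.coe_add, h, add_zero]

lemma tent_le_abs (q y : ℝ) : tent q y ≤ |y| := by
  unfold tent
  exact QuotientAddGroup.norm_mk_le_norm

lemma tent_sub_le (q y y' : ℝ) : |tent q y - tent q y'| ≤ |y - y'| := by
  unfold tent
  refine (abs_norm_sub_norm_le _ _).trans ?_
  rw [← AddCircle.coe_sub]
  exact tent_le_abs q (y - y')

lemma tent_eq_abs {q y : ℝ} (hq : 0 < q) (hy : |y| ≤ q / 2) : tent q y = |y| := by
  unfold tent
  rw [AddCircle.norm_coe_eq_abs_iff q hq.ne']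
  rwa [abs_of_pos hq]

lemma exists_rep {q : ℝ} (hq : 0 < q) (y : ℝ) : ∃ z : ℤ, |y + z * q| ≤ q / 2 := by
  refine ⟨-round (q⁻¹ * y), ?_⟩
  have h := AddCircle.norm_le_half_period q (x := (y : AddCircle q)) hq.ne'
  rw [AddCircle.norm_eq, abs_of_pos hq] at h
  simpa [sub_eq_add_neg] using h

lemma tent_le_half {q : ℝ} (hq : 0 < q) (y : ℝ) : tent q y ≤ q / 2 := by
  obtain ⟨z, hz⟩ := exists_rep hq y
  rw [← tent_add_int q y z, tent_eq_abs hq hz]
  exact hz

lemma tent_add_half {q : ℝ} (hq : 0 < q) (y : ℝ) : tent q y + tent q (y - q / 2) = q / 2 := by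
  obtain ⟨z, hz⟩ := exists_rep hq y
  set w := y + z * q with hw
  have h1 : tent q y = |w| := by rw [← tent_add_int q y z, tent_eq_abs hq hz]
  rcases le_total 0 w with h | h
  · have h2 : tent q (y - q / 2) = |w - q / 2| := by
      rw [← tent_add_int q (y - q / 2) z]
      have : y - q / 2 + z * q = w - q / 2 := by rw [hw]; ring
      rw [this]
      apply tent_eq_abs hq
      rw [abs_le] at hz ⊢
      constructor <;> linarith [hz.1, hz.2]
    rw [abs_le] at hz
    rw [h1, h2, abs_of_nonneg h, abs_of_nonpos (by linarith [hz.2])]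
    ring
  · have h2 : tent q (y - q / 2) = |w + q / 2| := by
      rw [← tent_add_int q (y - q / 2) (z + 1)]
      have : y - q / 2 + ((z + 1 : ℤ) : ℝ) * q = w + q / 2 := by rw [hw]; push_cast; ring
      rw [this]
      apply tent_eq_abs hq
      rw [abs_le] at hz ⊢
      constructor <;> linarith [hz.1, hz.2]
    rw [abs_le] at hz
    rw [h1, h2, abs_of_nonpos h, abs_of_nonneg (by linarith [hz.1])]
    ring

/-- exponent increments -/
def ee (k : ℕ) : ℕ := 10 * (k + 3) ^ 4

/-- exponents -/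
def mm : ℕ → ℕ
  | 0 => 0
  | k + 1 => mm k + ee k

/-- moduli -/
def qq (k : ℕ) : ℕ := 3 ^ mm k

/-- ratios of consecutive moduli -/
def RR (k : ℕ) : ℕ := 3 ^ ee k

/-- harmonic drifts -/
noncomputable def dd : ℕ → ℝ
  | 0 => 1
  | k + 1 => dd k + 1 / ((k : ℝ) + 2)

/-- slopes -/
noncomputable def ss (k : ℕ) : ℝ := dd k / qq k

lemma qq_zero : qq 0 = 1 := by simp [qq, mm]

lemma qq_def (k : ℕ) : qq k = 3 ^ mm k := rfl

lemma qq_succ (k : ℕ) : qq (k + 1) = qq k * RR k := by
  simp [qq, RR, mm, pow_add]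

lemma qq_pos (k : ℕ) : (0 : ℝ) < qq k := by
  have : 0 < qq k := by unfold qq; positivity
  exact_mod_cast this

lemma one_le_qq (k : ℕ) : (1 : ℝ) ≤ qq k := by
  have : 0 < qq k := by unfold qq; positivity
  exact_mod_cast this

lemma RR_ge (k : ℕ) : 10 * ((k : ℝ) + 3) ^ 4 ≤ RR k := by
  have h : ee k < 3 ^ ee k := Nat.lt_pow_self (by norm_num)
  have h2 : 10 * (k + 3) ^ 4 ≤ RR k := by unfold RR; unfold ee at h ⊢; omega
  exact_mod_cast h2

lemma RR_odd (k : ℕ) : Odd (RR k) := by
  unfold RR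
  exact Odd.pow (by decide)

lemma mm_mono : Monotone mm := monotone_nat_of_le_succ fun k => by simp [mm]

lemma le_mm (k : ℕ) : k ≤ mm k := by
  induction k with
  | zero => simp [mm]
  | succ k ih =>
    have : 0 < ee k := by unfold ee; positivity
    simp only [mm]; omega

lemma qq_dvd {k l : ℕ} (h : k ≤ l) : qq k ∣ qq l := pow_dvd_pow 3 (mm_mono h)

lemma qq_mono {k l : ℕ} (h : k ≤ l) : (qq k : ℝ) ≤ qq l := by
  have h1 : 0 < qq l := by unfold qq; positivity
  exact_mod_cast Nat.le_of_dvd h1 (qq_dvd h)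

lemma le_qq (k : ℕ) : (k : ℝ) ≤ qq k := by
  have h : mm k < 3 ^ mm k := Nat.lt_pow_self (by norm_num)
  have h2 : k ≤ qq k := by have := le_mm k; unfold qq; omega
  exact_mod_cast h2

attribute [irreducible] ee mm qq RR

lemma one_le_dd (k : ℕ) : 1 ≤ dd k := by
  induction k with
  | zero => simp [dd]
  | succ k ih =>
    have : 0 ≤ 1 / ((k : ℝ) + 2) := by positivity
    simp only [dd]; linarith

lemma dd_le (k : ℕ) : dd k ≤ k + 1 := by
  induction k with
  | zero => simp [dd]
  | succ k ih =>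
    have : 1 / ((k : ℝ) + 2) ≤ 1 := by
      rw [div_le_one (by positivity)]
      have : (0 : ℝ) ≤ k := by positivity
      linarith
    simp only [dd]; push_cast; linarith

lemma dd_succ_le (k : ℕ) : dd (k + 1) ≤ 2 * dd k := by
  have h1 := one_le_dd k
  have : 1 / ((k : ℝ) + 2) ≤ 1 := by
    rw [div_le_one (by positivity)]
    have : (0 : ℝ) ≤ k := by positivity
    linarith
  simp only [dd]; linarith

lemma dd_eq (k : ℕ) : dd k = ∑ i ∈ Finset.range (k + 1), (1 / ((i : ℝ) + 1)) := by
  induction k with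
  | zero => simp [dd]
  | succ k ih =>
    rw [Finset.sum_range_succ, ← ih]
    simp only [dd]; push_cast; ring

lemma dd_tendsto : Tendsto dd atTop atTop := by
  have h := Real.tendsto_sum_range_one_div_nat_succ_atTop
  have h2 := h.comp (tendsto_add_atTop_nat 1)
  refine h2.congr fun k => ?_
  simp [dd_eq]

lemma ss_pos (k : ℕ) : 0 < ss k := by
  unfold ss
  have := one_le_dd k
  have := qq_pos k
  positivity

lemma ss_mul_qq (k : ℕ) : ss k * qq k = dd k := by
  unfold ss
  have := qq_pos k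
  field_simp

lemma ss_succ_le (k : ℕ) : ss (k + 1) ≤ ss k / 3 := by
  have hq := qq_pos k
  have hR := RR_ge k
  have hk : (0 : ℝ) ≤ k := Nat.cast_nonneg k
  have h3 : (81 : ℝ) ≤ ((k : ℝ) + 3) ^ 4 := by
    have : (3 : ℝ) ^ 4 ≤ ((k : ℝ) + 3) ^ 4 := by gcongr; linarith
    norm_num at this ⊢; exact this
  have hR6 : (6 : ℝ) ≤ RR k := by linarith
  have hd := dd_succ_le k
  have hd1 := one_le_dd k
  unfold ss
  rw [qq_succ]
  push_cast
  rw [div_div, div_le_div_iff₀ (by positivity) (by positivity)]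
  have : dd (k + 1) * (qq k * 3) ≤ (2 * dd k) * (qq k * 3) := by gcongr
  have h2 : dd k * (qq k * 6) ≤ dd k * (qq k * RR k) := by gcongr
  nlinarith

lemma ss_add_le (K j : ℕ) : ss (j + K) ≤ ss K * (1 / 3) ^ j := by
  induction j with
  | zero => simp
  | succ j ih =>
    have h := ss_succ_le (j + K)
    have : j + 1 + K = j + K + 1 := by ring
    rw [this, pow_succ]
    linarith

lemma summable_ss_add (K : ℕ) : Summable fun j => ss (j + K) :=
  Summable.of_nonneg_of_le (fun _ => (ss_pos _).le) (fun j => ss_add_le K j)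
    ((summable_geometric_of_lt_one (by norm_num) (by norm_num)).mul_left _)

lemma summable_ss : Summable ss := by simpa using summable_ss_add 0

lemma tsum_ss_add_le (K : ℕ) : ∑' j, ss (j + K) ≤ 3 / 2 * ss K := by
  have h := (summable_ss_add K).tsum_le_tsum (fun j => ss_add_le K j)
    ((summable_geometric_of_lt_one (r := (1 / 3 : ℝ)) (by norm_num) (by norm_num)).mul_left _)
  rw [tsum_mul_left, tsum_geometric_of_lt_one (by norm_num) (by norm_num)] at h
  norm_num at h ⊢
  linarith

lemma ss_zero : ss 0 = 1 := by simp [ss, dd, qq_zero]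

lemma sum_ss_le (K : ℕ) : ∑ k ∈ Finset.range K, ss k ≤ 3 / 2 := by
  have h := tsum_ss_add_le 0
  simp only [add_zero, ss_zero, mul_one] at h
  exact (summable_ss.sum_le_tsum _ fun i _ => (ss_pos i).le).trans h

end Pool.Agent.Lib.MP_c1c973_an
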